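import Pool.Agent.Run7.h512.EN.Defs
import Pool.Agent.H933R2.Hopf.A

/-! # A finite quadrature on the unit sphere of `ℝⁿ` exact for sextic forms -/

set_option autoImplicit false

open scoped BigOperators

namespace Run7.h512.EN

namespace DesignA

open Hopf6.DesignA (mo vv pp pp_nonneg moment)

/-- Kronecker delta in `ℕ` -/
def dl {n : ℕ} (a b : Fin n) : ℕ := if a = b then 1 else 0

/-- the product of the one-dimensional moments -/
def FF {α : Type} [Fintype α] [DecidableEq α] (i : Fin 6 → α) : ℕ :=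
  ∏ t, mo (Finset.univ.filter fun k => i k = t).card

theorem FF_inj {α β : Type} [Fintype α] [DecidableEq α] [Fintype β] [DecidableEq β]
    (e : α → β) (he : Function.Injective e) (i : Fin 6 → α) : FF (fun k => e (i k)) = FF i := by
  unfold FF
  symm
  refine Fintype.prod_of_injective e he _ _ ?_ ?_
  · intro t ht
    have : (Finset.univ.filter fun k => e (i k) = t) = ∅ := by
      rw [Finset.filter_eq_empty_iff]
      intro k _ hk
      exact ht ⟨i k, hk⟩
    rw [this]
    rfl
  · intro t
    have : (Finset.univ.filter fun k => e (i k) = e t) = (Finset.univ.filter fun k => i k = t) := by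
      ext k
      simp only [Finset.mem_filter, Finset.mem_univ, true_and]
      exact he.eq_iff
    rw [this]

theorem FF6 (a b c d e f : Fin 6) : FF ![a, b, c, d, e, f] =
      Hopf6.DesignA.dl a b * Hopf6.DesignA.dl c d * Hopf6.DesignA.dl e f
      + Hopf6.DesignA.dl a b * Hopf6.DesignA.dl c e * Hopf6.DesignA.dl d f
      + Hopf6.DesignA.dl a b * Hopf6.DesignA.dl c f * Hopf6.DesignA.dl d e
      + Hopf6.DesignA.dl a c * Hopf6.DesignA.dl b d * Hopf6.DesignA.dl e f
      + Hopf6.DesignA.dl a c * Hopf6.DesignA.dl b e * Hopf6.DesignA.dl d f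
      + Hopf6.DesignA.dl a c * Hopf6.DesignA.dl b f * Hopf6.DesignA.dl d e
      + Hopf6.DesignA.dl a d * Hopf6.DesignA.dl b c * Hopf6.DesignA.dl e f
      + Hopf6.DesignA.dl a d * Hopf6.DesignA.dl b e * Hopf6.DesignA.dl c f
      + Hopf6.DesignA.dl a d * Hopf6.DesignA.dl b f * Hopf6.DesignA.dl c e
      + Hopf6.DesignA.dl a e * Hopf6.DesignA.dl b c * Hopf6.DesignA.dl d f
      + Hopf6.DesignA.dl a e * Hopf6.DesignA.dl b d * Hopf6.DesignA.dl c f
      + Hopf6.DesignA.dl a e * Hopf6.DesignA.dl b f * Hopf6.DesignA.dl c d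
      + Hopf6.DesignA.dl a f * Hopf6.DesignA.dl b c * Hopf6.DesignA.dl d e
      + Hopf6.DesignA.dl a f * Hopf6.DesignA.dl b d * Hopf6.DesignA.dl c e
      + Hopf6.DesignA.dl a f * Hopf6.DesignA.dl b e * Hopf6.DesignA.dl c d := by
  have h3 : ∀ t : Fin 6, (Finset.univ.filter fun k => (![a, b, c, d, e, f] : Fin 6 → Fin 6) k = t).card
      = Hopf6.DesignA.cnt a b c d e f t := by
    intro t
    rw [Finset.card_filter, Fin.sum_univ_six]
    rfl
  unfold FF
  simp only [h3]
  rw [Fin.prod_univ_six]
  exact Hopf6.DesignA.isserlis a b c d e f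

variable {n : ℕ}

theorem FFn (a b c d e f : Fin n) : FF ![a, b, c, d, e, f] =
      dl a b * dl c d * dl e f + dl a b * dl c e * dl d f + dl a b * dl c f * dl d e
      + dl a c * dl b d * dl e f + dl a c * dl b e * dl d f + dl a c * dl b f * dl d e
      + dl a d * dl b c * dl e f + dl a d * dl b e * dl c f + dl a d * dl b f * dl c e
      + dl a e * dl b c * dl d f + dl a e * dl b d * dl c f + dl a e * dl b f * dl c d
      + dl a f * dl b c * dl d e + dl a f * dl b d * dl c e + dl a f * dl b e * dl c d := by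
  classical
  let i : Fin 6 → Fin n := ![a, b, c, d, e, f]
  have hc : Fintype.card (Set.range i) ≤ Fintype.card (Fin 6) := by
    exact Fintype.card_range_le i
  obtain ⟨E⟩ := Function.Embedding.nonempty_of_card_le hc
  let i' : Fin 6 → Set.range i := fun k => ⟨i k, k, rfl⟩
  have h1 : FF (fun k => (Subtype.val (i' k) : Fin n)) = FF i' :=
    FF_inj Subtype.val Subtype.val_injective i'
  have h2 : FF (fun k => E (i' k)) = FF i' := FF_inj E E.injective i'
  have h3 : FF i = FF (fun k => E (i' k)) := by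
    rw [h2, ← h1]
  have h4 : (fun k => E (i' k)) = ![E (i' 0), E (i' 1), E (i' 2), E (i' 3), E (i' 4), E (i' 5)] := by
    funext k
    fin_cases k <;> rfl
  have h5 : ∀ k l : Fin 6, Hopf6.DesignA.dl (E (i' k)) (E (i' l)) = dl (i k) (i l) := by
    intro k l
    unfold Hopf6.DesignA.dl dl
    have : E (i' k) = E (i' l) ↔ i k = i l := by
      rw [E.injective.eq_iff]
      exact Subtype.ext_iff
    by_cases h : i k = i l
    · rw [if_pos h, if_pos (this.2 h)]
    · rw [if_neg h, if_neg (fun h' => h (this.1 h'))]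
  change FF i = _
  rw [h3, h4, FF6]
  simp only [h5]
  rfl

/-- the index type -/
abbrev Ix (n : ℕ) := Fin n → Fin 7

/-- the (unnormalised) point -/
noncomputable def yy (g : Ix n) (a : Fin n) : ℝ := vv (g a)

/-- squared norm -/
noncomputable def NN (g : Ix n) : ℝ := ∑ a, yy g a ^ 2

/-- product weight -/
noncomputable def PP (g : Ix n) : ℝ := ∏ a, pp (g a)

theorem NN_nonneg (g : Ix n) : 0 ≤ NN g := Finset.sum_nonneg fun _ _ => sq_nonneg _

theorem expect (i : Fin 6 → Fin n) :
    ∑ g : Ix n, PP g * ∏ k, yy g (i k) = ((FF i : ℕ) : ℝ) := by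
  have h1 : ∀ g : Ix n, PP g * ∏ k, yy g (i k)
      = ∏ t, (pp (g t) * vv (g t) ^ (Finset.univ.filter fun k => i k = t).card) := by
    intro g
    rw [Finset.prod_mul_distrib]
    unfold PP yy
    congr 1
    rw [← Finset.prod_fiberwise (s := Finset.univ) (g := i) (f := fun k => vv (g (i k)))]
    refine Finset.prod_congr rfl fun t _ => ?_
    rw [Finset.prod_congr rfl (g := fun _ => vv (g t)), Finset.prod_const]
    intro k hk
    rw [(Finset.mem_filter.mp hk).2]
  rw [Finset.sum_congr rfl fun g _ => h1 g]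
  have h2 := Finset.prod_univ_sum (fun _ : Fin n => (Finset.univ : Finset (Fin 7)))
    (fun t s => pp s * vv s ^ (Finset.univ.filter fun k => i k = t).card)
  rw [Fintype.piFinset_univ] at h2
  rw [← h2]
  unfold FF
  push_cast
  refine Finset.prod_congr rfl fun t _ => ?_
  rw [moment]
  exact (Finset.card_filter_le _ _).trans (by simp)

theorem expect6 (a b c d e f : Fin n) :
    ∑ g : Ix n, PP g * (yy g a * yy g b * (yy g c * yy g d) * (yy g e * yy g f))
      = (dl a b : ℝ) * dl c d * dl e f + dl a b * dl c e * dl d f + dl a b * dl c f * dl d e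
      + dl a c * dl b d * dl e f + dl a c * dl b e * dl d f + dl a c * dl b f * dl d e
      + dl a d * dl b c * dl e f + dl a d * dl b e * dl c f + dl a d * dl b f * dl c e
      + dl a e * dl b c * dl d f + dl a e * dl b d * dl c f + dl a e * dl b f * dl c d
      + dl a f * dl b c * dl d e + dl a f * dl b d * dl c e + dl a f * dl b e * dl c d := by
  have h1 := expect ![a, b, c, d, e, f]
  have h2 : ∀ g : Ix n, ∏ k, yy g ((![a, b, c, d, e, f] : Fin 6 → Fin n) k)
      = yy g a * yy g b * (yy g c * yy g d) * (yy g e * yy g f) := by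
    intro g
    rw [Fin.prod_univ_six]
    simp
    ring
  simp only [h2] at h1
  rw [h1, FFn]
  push_cast
  ring

/-- the weights -/
noncomputable def ww (g : Ix n) : ℝ := PP g * NN g ^ 3 / ((n : ℝ) * (n + 2) * (n + 4))

variable [NeZero n]

/-- the points -/
noncomputable def XX (g : Ix n) (a : Fin n) : ℝ :=
  if NN g = 0 then (if a = 0 then 1 else 0) else yy g a / Real.sqrt (NN g)

theorem unit_XX (g : Ix n) : ∑ a, XX g a ^ 2 = 1 := by
  unfold XX
  by_cases h : NN g = 0
  · simp [h]
  · simp only [if_neg h, div_pow, Real.sq_sqrt (NN_nonneg g)]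
    rw [← Finset.sum_div]
    exact div_self h

theorem ww_XX (g : Ix n) (a b c d e f : Fin n) :
    ww g * (XX g a * XX g b * (XX g c * XX g d) * (XX g e * XX g f))
      = (1 / ((n : ℝ) * (n + 2) * (n + 4))) *
        (PP g * (yy g a * yy g b * (yy g c * yy g d) * (yy g e * yy g f))) := by
  unfold ww XX
  by_cases h : NN g = 0
  · have h0 : yy g a = 0 := by
      have h1 := (Finset.sum_eq_zero_iff_of_nonneg (fun _ _ => sq_nonneg _)).mp h a
        (Finset.mem_univ a)
      exact pow_eq_zero_iff (two_ne_zero) |>.mp h1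
    rw [h, h0]
    simp
  · simp only [if_neg h]
    have hs : Real.sqrt (NN g) ≠ 0 := by
      rw [Real.sqrt_ne_zero (NN_nonneg g)]
      exact h
    have h3 : NN g ^ 3 = Real.sqrt (NN g) ^ 6 := by
      rw [show (6 : ℕ) = 2 * 3 from rfl, pow_mul, Real.sq_sqrt (NN_nonneg g)]
    have hn : (n : ℝ) ≠ 0 := Nat.cast_ne_zero.2 (NeZero.ne n)
    have hn2 : (n : ℝ) + 2 ≠ 0 := by positivity
    have hn4 : (n : ℝ) + 4 ≠ 0 := by positivity
    rw [h3]
    field_simp

end DesignA

open DesignA in
theorem exists_design (n : ℕ) [NeZero n] : ∃ (ι : Type) (_ : Fintype ι), Nonempty (Design n ι) := by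
  refine ⟨Ix n, inferInstance, ⟨⟨ww, XX, ?_, unit_XX, ?_⟩⟩⟩
  · intro g
    unfold ww PP
    have h1 := NN_nonneg g
    have h2 : 0 ≤ ∏ a, Hopf6.DesignA.pp (g a) :=
      Finset.prod_nonneg fun _ _ => Hopf6.DesignA.pp_nonneg _
    positivity
  · intro a b c d e f
    rw [Finset.sum_congr rfl fun g _ => ww_XX g a b c d e f, ← Finset.mul_sum, expect6]
    simp only [dl, Nat.cast_ite, Nat.cast_one, Nat.cast_zero]

end Run7.h512.EN
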