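import Pool.Agent.Run7.h512.EN.Fin

/-!
# The certificate for `s = 11 n / (19 n - 27)`
-/

set_option autoImplicit false

namespace Run7.h512.EN

/-- the admissible excess over `1` of the sectional curvatures in dimension `n` -/
noncomputable def exc (n : ℝ) : ℝ := 11 * n / (19 * n - 27)

/-- numerators of the coefficients -/
def Nn (n e : ℝ) : ℝ :=
  14 * (19 * n - 27) * e * (n - 1) + 770 * n + 11 * (n + 4) * (11 * n - 24)
def Mn (n e : ℝ) : ℝ := 11 * n * ((n + 4) * (n - 2) + 5) + e * (n - 1) * (19 * n - 27)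
def dn (n : ℝ) : ℝ := 14 * n ^ 2 - 39 * n + 24

theorem dn_pos {n : ℝ} (hn : 4 ≤ n) : 0 < dn n := by
  unfold dn
  nlinarith

theorem poly1 {n : ℝ} (hn : 4 ≤ n) :
    25 * 121 * (n - 1) * dn n ^ 2 ≤ (2999 / 1000 * (19 * n - 27) + 44) *
      (Nn n (2999 / 1000) * dn n - 14 * Mn n (2999 / 1000) * (11 * n - 24)) := by
  obtain ⟨k, rfl⟩ : ∃ k, n = 4 + k := ⟨n - 4, by ring⟩
  have hk : 0 ≤ k := by linarith
  rw [← sub_nonneg]
  unfold Nn Mn dn
  ring_nf
  positivity

theorem poly2 {n : ℝ} (hn : 4 ≤ n) :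
    (110 * n * dn n ^ 2 + Mn n (2999 / 1000) * (11 * n - 24) ^ 2) ^ 2 ≤
      4 * (2999 / 1000 * (19 * n - 27) - 11 * n) * n * dn n ^ 2 *
        (Nn n (2999 / 1000) * dn n + 14 * Mn n (2999 / 1000) * (11 * n - 24)) := by
  obtain ⟨k, rfl⟩ : ∃ k, n = 4 + k := ⟨n - 4, by ring⟩
  have hk : 0 ≤ k := by linarith
  rw [← sub_nonneg]
  unfold Nn Mn dn
  ring_nf
  positivity


theorem exc_pos {n : ℝ} (hn : 4 ≤ n) : 0 < exc n := by
  unfold exc
  have : 0 < 19 * n - 27 := by linarith
  positivity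

theorem idB_gen {n q e d p N M : ℝ} (hq : q ≠ 0) (hd : d ≠ 0)
    (hd1 : d = 14 * n ^ 2 - 39 * n + 24) (hp : p = 11 * n - 24)
    (hN : N = 14 * q * e * (n - 1) + 770 * n + 11 * (n + 4) * p)
    (hM : M = 11 * n * ((n + 4) * (n - 2) + 5) + e * (n - 1) * q) (b : ℝ) :
    ((N * d - 14 * M * p) / (11 * d ^ 2) + 196 * q * M / (121 * d ^ 2) * b) *
      ((n - 2) * (11 * n / q) - b) =
      e * (n - 1) + 5 * (11 * n / q) + (n + 4) * b -
        196 * q * M / (121 * d ^ 2) * (b - 11 * p / (14 * q)) ^ 2 := by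
  have h1 : (n - 2) * (11 * n / q) - b = 11 * d / (14 * q) - (b - 11 * p / (14 * q)) := by
    rw [hd1, hp]
    field_simp
    ring
  have h2 : (N * d - 14 * M * p) / (11 * d ^ 2) + 196 * q * M / (121 * d ^ 2) * b =
      N / (11 * d) + 196 * q * M / (121 * d ^ 2) * (b - 11 * p / (14 * q)) := by
    field_simp
    ring
  have h3 : e * (n - 1) + 5 * (11 * n / q) + (n + 4) * b =
      N / (14 * q) + (n + 4) * (b - 11 * p / (14 * q)) := by
    rw [hN]
    field_simp
    ring
  have h4 : 11 * d / (14 * q) * (196 * q * M / (121 * d ^ 2)) = N / (11 * d) + (n + 4) := by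
    have h5 : 14 * M = N + 11 * (n + 4) * d := by
      rw [hM, hN, hd1, hp]
      ring
    have h6 : 11 * d / (14 * q) * (196 * q * M / (121 * d ^ 2)) = 14 * M / (11 * d) := by
      field_simp
      ring
    rw [h6, h5]
    field_simp
  have h7 : N / (11 * d) * (11 * d / (14 * q)) = N / (14 * q) := by
    field_simp
  rw [h1, h2, h3]
  linear_combination h7 + (b - 11 * p / (14 * q)) * h4

theorem idB_aux {n : ℝ} (hq : 19 * n - 27 ≠ 0) (hd : dn n ≠ 0) (b : ℝ) :
    ((Nn n (2999 / 1000) * dn n - 14 * Mn n (2999 / 1000) * (11 * n - 24)) / (11 * dn n ^ 2) +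
      196 * (19 * n - 27) * Mn n (2999 / 1000) / (121 * dn n ^ 2) * b) * ((n - 2) * exc n - b) =
      2999 / 1000 * (n - 1) + 5 * exc n + (n + 4) * b -
        196 * (19 * n - 27) * Mn n (2999 / 1000) / (121 * dn n ^ 2) *
          (b - 11 * (11 * n - 24) / (14 * (19 * n - 27))) ^ 2 := by
  have h := idB_gen (n := n) (q := 19 * n - 27) (e := 2999 / 1000) (d := dn n) (p := 11 * n - 24)
    (N := Nn n (2999 / 1000)) (M := Mn n (2999 / 1000)) hq hd rfl rfl
    (by unfold Nn; ring) (by unfold Mn; ring) b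
  exact h

/-- the certificate -/
noncomputable def cert {n : ℝ} (hn : 4 ≤ n) : Cert n (exc n) (2999 / 1000) := by
  have hq : 0 < 19 * n - 27 := by linarith
  have hn0 : 0 < n := by linarith
  have hn1 : 0 < n - 1 := by linarith
  have hp : 0 < 11 * n - 24 := by linarith
  have hd := dn_pos hn
  have hq' : 19 * n - 27 ≠ 0 := hq.ne'
  have hn0' : n ≠ 0 := hn0.ne'
  have hn1' : n - 1 ≠ 0 := hn1.ne'
  have hM : 0 < Mn n (2999 / 1000) := by
    unfold Mn
    have : 0 < n - 2 := by linarith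
    positivity
  have h1 := poly1 hn
  have h2 := poly2 hn
  have hc1 : 0 < (2999 / 1000 * (19 * n - 27) + 44) / (11 * (n - 1)) := by positivity
  have hq1 : 25 ≤ (2999 / 1000 * (19 * n - 27) + 44) / (11 * (n - 1)) *
      ((Nn n (2999 / 1000) * dn n - 14 * Mn n (2999 / 1000) * (11 * n - 24)) / (11 * dn n ^ 2)) := by
    rw [div_mul_div_comm, le_div_iff₀ (by positivity)]
    nlinarith [h1]
  refine
    { c1 := (2999 / 1000 * (19 * n - 27) + 44) / (11 * (n - 1))
      c2 := (11 * n * (n + 3) + 2999 / 1000 * (19 * n - 27)) * (19 * n - 27)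
        / (121 * n ^ 2 * (n - 1))
      d1 := (Nn n (2999 / 1000) * dn n - 14 * Mn n (2999 / 1000) * (11 * n - 24)) / (11 * dn n ^ 2)
      d2 := 196 * (19 * n - 27) * Mn n (2999 / 1000) / (121 * dn n ^ 2)
      b0 := 11 * (11 * n - 24) / (14 * (19 * n - 27))
      t0 := (11 * n - 24) / (14 * n)
      s_pos := exc_pos hn
      c2_nonneg := by positivity
      d2_nonneg := by positivity
      d1_nonneg := ?_
      c1_pos := hc1
      t0_nonneg := by positivity
      gap := ?_
      idA := ?_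
      idB := ?_
      q1 := hq1
      q2 := ?_ }
  · by_contra h
    push Not at h
    have := mul_neg_of_pos_of_neg hc1 h
    linarith
  · have e1 : (2999 / 1000 * (19 * n - 27) + 44) / (11 * (n - 1)) - exc n *
        ((11 * n * (n + 3) + 2999 / 1000 * (19 * n - 27)) * (19 * n - 27)
        / (121 * n ^ 2 * (n - 1))) = (2999 / 1000 * (19 * n - 27) - 11 * n) / (11 * n) := by
      unfold exc
      field_simp
      ring
    rw [e1]
    have : 0 < 2999 / 1000 * (19 * n - 27) - 11 * n := by linarith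
    positivity
  · intro u
    unfold exc
    field_simp
    ring
  · intro b
    have hd' := hd.ne'
    exact idB_aux hq' hd' b
  · have e1 : (2999 / 1000 * (19 * n - 27) + 44) / (11 * (n - 1)) - exc n *
        ((11 * n * (n + 3) + 2999 / 1000 * (19 * n - 27)) * (19 * n - 27)
        / (121 * n ^ 2 * (n - 1))) = (2999 / 1000 * (19 * n - 27) - 11 * n) / (11 * n) := by
      unfold exc
      field_simp
      ring
    have e2 : exc n * (196 * (19 * n - 27) * Mn n (2999 / 1000) / (121 * dn n ^ 2)) *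
        ((11 * n - 24) / (14 * n)) ^ 2 = Mn n (2999 / 1000) * (11 * n - 24) ^ 2 / (11 * n * dn n ^ 2) := by
      unfold exc
      have hd' := hd.ne'
      generalize 19 * n - 27 = q at hq' ⊢
      field_simp
      ring
    have e3 : (Nn n (2999 / 1000) * dn n - 14 * Mn n (2999 / 1000) * (11 * n - 24)) / (11 * dn n ^ 2) +
        2 * (exc n * (196 * (19 * n - 27) * Mn n (2999 / 1000) / (121 * dn n ^ 2)) *
        ((11 * n - 24) / (14 * n))) =
        (Nn n (2999 / 1000) * dn n + 14 * Mn n (2999 / 1000) * (11 * n - 24)) / (11 * dn n ^ 2) := by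
      unfold exc
      have hd' := hd.ne'
      generalize 19 * n - 27 = q at hq' ⊢
      field_simp
      ring
    rw [e1, e2, e3]
    have e4 : (10 + Mn n (2999 / 1000) * (11 * n - 24) ^ 2 / (11 * n * dn n ^ 2)) ^ 2 =
        (110 * n * dn n ^ 2 + Mn n (2999 / 1000) * (11 * n - 24) ^ 2) ^ 2 /
          (121 * n ^ 2 * dn n ^ 4) := by
      have hd' := hd.ne'
      field_simp
      ring
    have e5 : 4 * ((2999 / 1000 * (19 * n - 27) - 11 * n) / (11 * n)) *
        ((Nn n (2999 / 1000) * dn n + 14 * Mn n (2999 / 1000) * (11 * n - 24)) / (11 * dn n ^ 2)) =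
        (4 * (2999 / 1000 * (19 * n - 27) - 11 * n) * n * dn n ^ 2 *
        (Nn n (2999 / 1000) * dn n + 14 * Mn n (2999 / 1000) * (11 * n - 24))) /
          (121 * n ^ 2 * dn n ^ 4) := by
      have hd' := hd.ne'
      field_simp
      ring
    rw [e4, e5]
    exact div_le_div_of_nonneg_right h2 (by positivity)

end Run7.h512.EN
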