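import Pool.Agent.Run7.h512.EN.Field

/-!
# Closed Einstein manifolds: the maximum principle
-/

set_option autoImplicit false

open scoped BigOperators Topology
open Filter

namespace Run7.h512.EN

/-- the second derivative test -/
theorem second_deriv_nonpos {f : ℝ → ℝ} {x : ℝ} (h : IsLocalMax f x) (hc : ContinuousAt f x) :
    deriv (deriv f) x ≤ 0 := by
  by_contra hn
  push Not at hn
  have h1 : IsLocalMin f x := isLocalMin_of_deriv_deriv_pos hn h.deriv_eq_zero hc
  have h2 : f =ᶠ[𝓝 x] fun _ => f x := by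
    filter_upwards [h, h1] with y hy1 hy2
    exact le_antisymm hy1 hy2
  have h3 : deriv f =ᶠ[𝓝 x] deriv fun _ => f x := h2.deriv
  have h4 : deriv (deriv f) x = 0 := by
    rw [h3.deriv_eq]
    simp
  linarith

namespace CurvField

variable {n : ℕ} {M : Type} (K : CurvField n M)

/-- `|R|²` -/
noncomputable def nrm (p : M) : ℝ := normSq (K.e p) (K.R p)

/-- `|∇_i R|² + ⟨∇²_{i,i} R, R⟩` -/
noncomputable def part (p : M) (i : Fin n) : ℝ :=
  ∑ a, ∑ b, ∑ c, ∑ d, K.D p (K.e p i) (K.e p a) (K.e p b) (K.e p c) (K.e p d) ^ 2 +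
  ∑ a, ∑ b, ∑ c, ∑ d,
    K.T p (K.e p i) (K.e p i) (K.e p a) (K.e p b) (K.e p c) (K.e p d)
      * K.R p (K.e p a) (K.e p b) (K.e p c) (K.e p d)

theorem halfLap_eq (p : M) : K.halfLap p = ∑ i, K.part p i := by
  unfold halfLap gradSq part
  rw [Finset.sum_add_distrib]

/-- `γ p i` is a curve through `p` (the geodesic with the initial velocity `e i`) along which
the second derivative of `|R|²` is `2 |∇_i R|² + 2 ⟨∇²_{i,i} R, R⟩` at `p`. -/
structure IsGeodesicFrame [TopologicalSpace M] (γ : M → Fin n → ℝ → M) : Prop where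
  zero : ∀ p i, γ p i 0 = p
  cont : ∀ p i, ContinuousAt (γ p i) 0
  second : ∀ p i, deriv (deriv fun t => K.nrm (γ p i t)) 0 = 2 * K.part p i

theorem halfLap_nonpos_of_max [TopologicalSpace M] {γ : M → Fin n → ℝ → M}
    (hγ : K.IsGeodesicFrame γ) (hc : Continuous K.nrm) {p : M} (hp : ∀ q, K.nrm q ≤ K.nrm p) :
    K.halfLap p ≤ 0 := by
  rw [K.halfLap_eq]
  refine Finset.sum_nonpos fun i _ => ?_
  have h1 : IsLocalMax (fun t => K.nrm (γ p i t)) 0 := by
    refine Eventually.of_forall fun t => ?_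
    change K.nrm (γ p i t) ≤ K.nrm (γ p i 0)
    rw [hγ.zero]
    exact hp _
  have h2 : ContinuousAt (fun t => K.nrm (γ p i t)) 0 :=
    ContinuousAt.comp (g := K.nrm) hc.continuousAt (hγ.cont p i)
  have h3 := second_deriv_nonpos h1 h2
  rw [hγ.second p i] at h3
  linarith

theorem compact_round [TopologicalSpace M] [CompactSpace M] (hn : 4 ≤ n) {κ : ℝ} (hκ : 0 < κ)
    (hE : ∀ p, Einstein (K.e p) (K.R p) κ) (h : ∀ p, SecLE (K.R p) (kn n * κ))
    (hc : Continuous K.nrm) {γ : M → Fin n → ℝ → M} (hγ : K.IsGeodesicFrame γ) (p : M) :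
    K.R p = rnd κ := by
  obtain ⟨q, -, hq⟩ := isCompact_univ.exists_isMaxOn ⟨p, Set.mem_univ p⟩ hc.continuousOn
  have hq' : ∀ r, K.nrm r ≤ K.nrm q := fun r => hq (Set.mem_univ r)
  have h1 := K.halfLap_nonpos_of_max hγ hc hq'
  have h2 := K.halfLap_nonneg hn hκ q (hE q) (h q)
  have h3 := (K.of_zero hn hκ q (hE q) (h q) (le_antisymm h1 h2)).1
  have h4 : devSq (K.e q) (K.R q) κ = 0 := by
    unfold devSq normSq
    simp [h3]
  have h5 := devSq_eq (K.e q) (K.curv q) (hE q)
  have h6 := devSq_eq (K.e p) (K.curv p) (hE p)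
  have h7 : devSq (K.e p) (K.R p) κ ≤ 0 := by
    have := hq' p
    unfold nrm at this
    linarith
  exact eq_rnd_of_dev (K.e p) (K.curv p) (le_antisymm h7 (normSq_nonneg _ _))

end CurvField

end Run7.h512.EN
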