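import Mathlib

/-!
# The finite inequality behind the pinching theorem

`u i` are the eigenvalues (minus one) of the Jacobi operator at a unit vector of an Einstein curvature
tensor, `v i j` is the deviation of the sectional curvatures from the upper bound `1 + s`.
-/

set_option autoImplicit false

open scoped BigOperators

namespace Run7.h512.EN

/-- the coefficients of the certificate -/
structure Cert (n s e : ℝ) where
  c1 : ℝ
  c2 : ℝ
  d1 : ℝ
  d2 : ℝ
  b0 : ℝ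
  t0 : ℝ
  s_pos : 0 < s
  c2_nonneg : 0 ≤ c2
  d2_nonneg : 0 ≤ d2
  d1_nonneg : 0 ≤ d1
  c1_pos : 0 < c1
  t0_nonneg : 0 ≤ t0
  gap : 0 < c1 - s * c2
  idA : ∀ u, (c1 - c2 * u) * ((n - 2) * s + u) = e * (n - 1) + 5 * s - (n + 4) * u - c2 * (u - s) ^ 2
  idB : ∀ b, (d1 + d2 * b) * ((n - 2) * s - b) =
    e * (n - 1) + 5 * s + (n + 4) * b - d2 * (b - b0) ^ 2
  q1 : 25 ≤ c1 * d1
  q2 : (10 + s * d2 * t0 ^ 2) ^ 2 ≤ 4 * (c1 - s * c2) * (d1 + 2 * (s * d2 * t0))

namespace Cert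
variable {n s e : ℝ} (C : Cert n s e)

/-- the weight of a vertex -/
noncomputable def pi (u : ℝ) : ℝ := if 0 ≤ u then C.c1 * u ^ 2 - C.c2 * u ^ 3 else C.d1 * u ^ 2 - C.d2 * u ^ 3

include C in
theorem pi_row (u : ℝ) :
    C.pi u * ((n - 2) * s + u) ≤ (e * (n - 1) + 5 * s) * u ^ 2 - (n + 4) * u ^ 3 := by
  unfold pi
  split_ifs with h
  · have h1 := C.idA u
    have h2 : 0 ≤ C.c2 * (u - s) ^ 2 * u ^ 2 :=
      mul_nonneg (mul_nonneg C.c2_nonneg (sq_nonneg _)) (sq_nonneg _)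
    have h3 : (C.c1 * u ^ 2 - C.c2 * u ^ 3) * ((n - 2) * s + u) =
        ((C.c1 - C.c2 * u) * ((n - 2) * s + u)) * u ^ 2 := by ring
    rw [h3, h1]
    nlinarith [h2]
  · have h1 := C.idB (-u)
    have h2 : 0 ≤ C.d2 * (-u - C.b0) ^ 2 * u ^ 2 :=
      mul_nonneg (mul_nonneg C.d2_nonneg (sq_nonneg _)) (sq_nonneg _)
    have h3 : (C.d1 * u ^ 2 - C.d2 * u ^ 3) * ((n - 2) * s + u) =
        ((C.d1 + C.d2 * (-u)) * ((n - 2) * s - (-u))) * u ^ 2 := by ring
    rw [h3, h1]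
    nlinarith [h2]

theorem quad_nonneg {A B c x y : ℝ} (hA : 0 < A) (hc : c ^ 2 ≤ 4 * A * B) :
    0 ≤ A * x ^ 2 - c * (x * y) + B * y ^ 2 := by
  have h1 : 0 ≤ (2 * A * x - c * y) ^ 2 + (4 * A * B - c ^ 2) * y ^ 2 :=
    add_nonneg (sq_nonneg _) (mul_nonneg (by linarith) (sq_nonneg _))
  have h2 : (2 * A * x - c * y) ^ 2 + (4 * A * B - c ^ 2) * y ^ 2 =
      4 * A * (A * x ^ 2 - c * (x * y) + B * y ^ 2) := by ring
  rw [h2] at h1
  exact nonneg_of_mul_nonneg_right h1 (by linarith)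

include C in
theorem mixed {a b : ℝ} (ha : 0 ≤ a) (has : a ≤ s) (hb : 0 ≤ b) :
    10 * (a * b) ≤ C.c1 * a ^ 2 - C.c2 * a ^ 3 + (C.d1 * b ^ 2 + C.d2 * b ^ 3) := by
  have hs := C.s_pos
  have h1 : 0 ≤ C.c1 * a ^ 2 - 10 * (a * b) + C.d1 * b ^ 2 :=
    quad_nonneg C.c1_pos (by have := C.q1; linarith)
  have h2 : 0 ≤ (C.c1 - s * C.c2) * a ^ 2 - (10 + s * C.d2 * C.t0 ^ 2) * (a * b) +
      (C.d1 + 2 * (s * C.d2 * C.t0)) * b ^ 2 :=
    quad_nonneg C.gap C.q2
  have h3 : 0 ≤ s * C.d2 * (b * (b - C.t0 * a) ^ 2) :=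
    mul_nonneg (mul_nonneg hs.le C.d2_nonneg) (mul_nonneg hb (sq_nonneg _))
  have h4 : s * (C.c1 * a ^ 2 - C.c2 * a ^ 3 + (C.d1 * b ^ 2 + C.d2 * b ^ 3) - 10 * (a * b)) =
      (s - a) * (C.c1 * a ^ 2 - 10 * (a * b) + C.d1 * b ^ 2) +
      a * ((C.c1 - s * C.c2) * a ^ 2 - (10 + s * C.d2 * C.t0 ^ 2) * (a * b) +
        (C.d1 + 2 * (s * C.d2 * C.t0)) * b ^ 2) +
      s * C.d2 * (b * (b - C.t0 * a) ^ 2) := by ring
  have h5 : 0 ≤ s * (C.c1 * a ^ 2 - C.c2 * a ^ 3 + (C.d1 * b ^ 2 + C.d2 * b ^ 3) - 10 * (a * b)) := by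
    rw [h4]
    have := mul_nonneg (sub_nonneg.2 has) h1
    have := mul_nonneg ha h2
    linarith
  have h6 := nonneg_of_mul_nonneg_right h5 hs
  linarith

include C in
theorem pi_pair {u v : ℝ} (hu : u ≤ s) (hv : v ≤ s) : 0 ≤ C.pi u + C.pi v + 10 * (u * v) := by
  have hs := C.s_pos
  have hP : ∀ w, 0 ≤ w → w ≤ s → 0 ≤ C.c1 * w ^ 2 - C.c2 * w ^ 3 := by
    intro w h0 h1
    have h2 : C.c2 * w ≤ C.c2 * s := mul_le_mul_of_nonneg_left h1 C.c2_nonneg
    have h3 := C.gap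
    have h4 : 0 ≤ (C.c1 - C.c2 * w) * w ^ 2 := mul_nonneg (by nlinarith) (sq_nonneg _)
    nlinarith
  have hN : ∀ w, w ≤ 0 → 0 ≤ C.d1 * w ^ 2 - C.d2 * w ^ 3 := by
    intro w h0
    have h1 : 0 ≤ (C.d1 + C.d2 * (-w)) * w ^ 2 :=
      mul_nonneg (add_nonneg C.d1_nonneg (mul_nonneg C.d2_nonneg (by linarith))) (sq_nonneg _)
    nlinarith
  unfold pi
  split_ifs with h1 h2 h2
  · have := hP u h1 hu
    have := hP v h2 hv
    have := mul_nonneg h1 h2
    linarith
  · have := C.mixed h1 hu (b := -v) (by linarith)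
    have e1 : (-v) ^ 2 = v ^ 2 := by ring
    have e2 : (-v) ^ 3 = - v ^ 3 := by ring
    rw [e1, e2] at this
    linarith
  · have := C.mixed h2 hv (b := -u) (by linarith)
    have e1 : (-u) ^ 2 = u ^ 2 := by ring
    have e2 : (-u) ^ 3 = - u ^ 3 := by ring
    rw [e1, e2] at this
    linarith
  · have := hN u (by linarith)
    have := hN v (by linarith)
    have := mul_nonneg_of_nonpos_of_nonpos (a := u) (b := v) (by linarith) (by linarith)
    linarith

include C in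
theorem fin_core {m : ℕ} (u : Fin m → ℝ) (v : Fin m → Fin m → ℝ) (hsym : ∀ i j, v i j = v j i)
    (hv : ∀ i j, 0 ≤ v i j) (hrow : ∀ i, ∑ j, v i j = (n - 2) * s + u i) (hu : ∀ i, u i ≤ s) :
    0 ≤ (e * (n - 1) + 5 * s) * ∑ i, u i ^ 2 - (n + 4) * ∑ i, u i ^ 3
      + 5 * ∑ i, ∑ j, u i * u j * v i j := by
  have h1 : ∑ i, C.pi (u i) * ((n - 2) * s + u i) ≤
      (e * (n - 1) + 5 * s) * ∑ i, u i ^ 2 - (n + 4) * ∑ i, u i ^ 3 := by
    rw [Finset.mul_sum, Finset.mul_sum, ← Finset.sum_sub_distrib]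
    exact Finset.sum_le_sum fun i _ => C.pi_row (u i)
  have h2 : 0 ≤ ∑ i, ∑ j, v i j * (C.pi (u i) + C.pi (u j) + 10 * (u i * u j)) :=
    Finset.sum_nonneg fun i _ => Finset.sum_nonneg fun j _ =>
      mul_nonneg (hv i j) (C.pi_pair (hu i) (hu j))
  have h3 : ∑ i, ∑ j, v i j * (C.pi (u i) + C.pi (u j) + 10 * (u i * u j)) =
      ∑ i, ∑ j, C.pi (u i) * v i j + ∑ i, ∑ j, C.pi (u j) * v i j
        + 10 * ∑ i, ∑ j, u i * u j * v i j := by
    rw [Finset.mul_sum, ← Finset.sum_add_distrib, ← Finset.sum_add_distrib]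
    refine Finset.sum_congr rfl fun i _ => ?_
    rw [Finset.mul_sum, ← Finset.sum_add_distrib, ← Finset.sum_add_distrib]
    exact Finset.sum_congr rfl fun j _ => by ring
  have h4 : ∑ i, ∑ j, C.pi (u i) * v i j = ∑ i, C.pi (u i) * ((n - 2) * s + u i) := by
    refine Finset.sum_congr rfl fun i _ => ?_
    rw [← Finset.mul_sum, hrow i]
  have h5 : ∑ i, ∑ j, C.pi (u j) * v i j = ∑ i, C.pi (u i) * ((n - 2) * s + u i) := by
    rw [Finset.sum_comm]
    refine Finset.sum_congr rfl fun i _ => ?_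
    rw [← Finset.mul_sum, ← hrow i]
    congr 1
    exact Finset.sum_congr rfl fun j _ => hsym j i
  rw [h3, h4, h5] at h2
  linarith

include C in
theorem fin_ineq {m : ℕ} (hn : n = m + 1) (l : Fin m → ℝ) (K : Fin m → Fin m → ℝ)
    (hsym : ∀ i j, K i j = K j i) (hd : ∀ i, K i i = 0) (hK : ∀ i j, i ≠ j → K i j ≤ 1 + s)
    (hrow : ∀ i, ∑ j, K i j = m - l i) (hl : ∀ i, l i ≤ 1 + s) (hs : ∑ i, l i = m) :
    (3 - e) * m * (∑ i, l i ^ 2 - m) ≤ 6 * m * ∑ i, l i ^ 2 - (m + 5) * ∑ i, l i ^ 3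
      - 5 * ∑ i, ∑ j, l i * l j * K i j := by
  classical
  let u : Fin m → ℝ := fun i => l i - 1
  let v : Fin m → Fin m → ℝ := fun i j => if i = j then 0 else 1 + s - K i j
  have hvs : ∀ i j, v i j = v j i := by
    intro i j
    simp only [v]
    by_cases h : i = j
    · rw [if_pos h, if_pos h.symm]
    · rw [if_neg h, if_neg (Ne.symm h), hsym i j]
  have hv0 : ∀ i j, 0 ≤ v i j := by
    intro i j
    simp only [v]
    split_ifs with h
    · exact le_refl _
    · have := hK i j h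
      linarith
  have hve : ∀ i j, v i j = (1 + s) - K i j - (if i = j then (1 + s) else 0) := by
    intro i j
    simp only [v]
    split_ifs with h
    · rw [h, hd]
      ring
    · ring
  have hvr : ∀ i, ∑ j, v i j = (n - 2) * s + u i := by
    intro i
    rw [Finset.sum_congr rfl fun j _ => hve i j, Finset.sum_sub_distrib, Finset.sum_sub_distrib,
      hrow i]
    simp only [Finset.sum_const, Finset.card_univ, Fintype.card_fin, nsmul_eq_mul,
      Finset.sum_ite_eq, Finset.mem_univ, if_true, u, hn]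
    ring
  have hu : ∀ i, u i ≤ s := fun i => by
    have := hl i
    simp only [u]
    linarith
  have h1 := C.fin_core u v hvs hv0 hvr hu
  have hu0 : ∑ i, u i = 0 := by
    simp only [u]
    rw [Finset.sum_sub_distrib, hs]
    simp
  have hu2 : ∑ i, u i ^ 2 = ∑ i, l i ^ 2 - m := by
    have : ∀ i, u i ^ 2 = l i ^ 2 - 2 * l i + 1 := fun i => by simp only [u]; ring
    rw [Finset.sum_congr rfl fun i _ => this i, Finset.sum_add_distrib, Finset.sum_sub_distrib,
      ← Finset.mul_sum, hs]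
    simp only [Finset.sum_const, Finset.card_univ, Fintype.card_fin, nsmul_eq_mul]
    ring
  have hu3 : ∑ i, u i ^ 3 = ∑ i, l i ^ 3 - 3 * ∑ i, l i ^ 2 + 2 * m := by
    have : ∀ i, u i ^ 3 = l i ^ 3 - 3 * l i ^ 2 + 3 * l i - 1 := fun i => by simp only [u]; ring
    rw [Finset.sum_congr rfl fun i _ => this i, Finset.sum_sub_distrib, Finset.sum_add_distrib,
      Finset.sum_sub_distrib, ← Finset.mul_sum, ← Finset.mul_sum, hs]
    simp only [Finset.sum_const, Finset.card_univ, Fintype.card_fin, nsmul_eq_mul]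
    ring
  -- the double sum
  have hll : ∑ i, ∑ j, l i * l j * v i j = (1 + s) * ((m : ℝ) ^ 2 - ∑ i, l i ^ 2)
      - ∑ i, ∑ j, l i * l j * K i j := by
    have e1 : ∀ i, ∑ j, l i * l j * v i j = (1 + s) * l i * m - (1 + s) * l i ^ 2
        - ∑ j, l i * l j * K i j := by
      intro i
      have e2 : ∀ j, l i * l j * v i j = (1 + s) * l i * l j - (if i = j then (1 + s) * l i * l j else 0)
          - l i * l j * K i j := by
        intro j
        rw [hve i j]
        split_ifs <;> ring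
      rw [Finset.sum_congr rfl fun j _ => e2 j, Finset.sum_sub_distrib, Finset.sum_sub_distrib,
        ← Finset.mul_sum, hs]
      simp only [Finset.sum_ite_eq, Finset.mem_univ, if_true]
      ring
    rw [Finset.sum_congr rfl fun i _ => e1 i, Finset.sum_sub_distrib, Finset.sum_sub_distrib,
      ← Finset.sum_mul, ← Finset.mul_sum, ← Finset.mul_sum, hs]
    ring
  have huv : ∑ i, ∑ j, u i * u j * v i j = ∑ i, ∑ j, l i * l j * v i j
      - (n - 2) * s * m - 2 * ∑ i, u i ^ 2 := by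
    have e1 : ∀ i, ∑ j, l i * l j * v i j = ∑ j, u i * u j * v i j + u i * ∑ j, v i j
        + ∑ j, u j * v i j + ∑ j, v i j := by
      intro i
      rw [Finset.mul_sum, ← Finset.sum_add_distrib, ← Finset.sum_add_distrib,
        ← Finset.sum_add_distrib]
      refine Finset.sum_congr rfl fun j _ => ?_
      simp only [u]
      ring
    rw [Finset.sum_congr rfl fun i _ => e1 i, Finset.sum_add_distrib, Finset.sum_add_distrib,
      Finset.sum_add_distrib]
    have e2 : ∑ i, u i * ∑ j, v i j = ∑ i, u i ^ 2 := by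
      have : ∀ i, u i * ∑ j, v i j = (n - 2) * s * u i + u i ^ 2 := fun i => by
        rw [hvr i]; ring
      rw [Finset.sum_congr rfl fun i _ => this i, Finset.sum_add_distrib, ← Finset.mul_sum, hu0]
      ring
    have e3 : ∑ i, ∑ j, u j * v i j = ∑ i, u i * ∑ j, v i j := by
      rw [Finset.sum_comm]
      refine Finset.sum_congr rfl fun i _ => ?_
      rw [Finset.mul_sum]
      exact Finset.sum_congr rfl fun j _ => by rw [hvs j i]
    have e4 : ∑ i, ∑ j, v i j = (n - 2) * s * m := by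
      rw [Finset.sum_congr rfl fun i _ => hvr i, Finset.sum_add_distrib, hu0]
      simp only [Finset.sum_const, Finset.card_univ, Fintype.card_fin, nsmul_eq_mul]
      ring
    rw [e3, e2, e4]
    ring
  rw [huv, hll, hu3, hu2, hn] at h1
  nlinarith [h1]

end Cert

end Run7.h512.EN
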