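import Pool.Agent.Run7.h512.EN.A
import Pool.Agent.Run7.h512.EN.Pt
import Pool.Agent.Run7.h512.EN.Cert

/-!
# The Bochner-Lichnerowicz cubic of an Einstein curvature tensor with an upper curvature bound
-/

set_option autoImplicit false

open scoped BigOperators

namespace Run7.h512.EN

section core
variable {m : ℕ} {R : Ten (m + 1)} (hE : ∀ a b, Rc R a b = if a = b then (m : ℝ) else 0)
include hE

theorem nR_ein : nR R = (m + 1) * (m : ℝ) ^ 2 := by
  unfold nR
  have : ∀ a, ∑ b, Rc R a b * Rc R a b = (m : ℝ) ^ 2 := by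
    intro a
    simp only [hE]
    rw [Finset.sum_eq_single a]
    · rw [if_pos rfl]
      ring
    · intro b _ hb
      rw [if_neg (Ne.symm hb), zero_mul]
    · simp
  simp only [this]
  simp

theorem I4_ein : I4 R = (m + 1) * (m : ℝ) ^ 3 := by
  unfold I4
  have : ∀ a, ∑ b, ∑ c, Rc R a b * Rc R b c * Rc R c a = (m : ℝ) ^ 3 := by
    intro a
    simp only [hE]
    rw [Finset.sum_eq_single a]
    · rw [Finset.sum_eq_single a]
      · rw [if_pos rfl]
        ring
      · intro c _ hc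
        rw [if_neg (Ne.symm hc), mul_zero, zero_mul]
      · simp
    · intro b _ hb
      refine Finset.sum_eq_zero fun c _ => ?_
      rw [if_neg (Ne.symm hb), zero_mul, zero_mul]
    · simp
  simp only [this]
  simp

theorem I5_ein : I5 R = (m + 1) * (m : ℝ) ^ 3 := by
  unfold I5
  have : ∀ a, ∑ b, ∑ c, ∑ d, Rc R a b * R a c b d * Rc R c d = (m : ℝ) ^ 3 := by
    intro a
    have e1 : ∀ c, ∑ d, (m : ℝ) * R a c a d * Rc R c d = (m : ℝ) ^ 2 * R a c a c := by
      intro c
      simp only [hE]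
      rw [Finset.sum_eq_single c]
      · rw [if_pos rfl]
        ring
      · intro d _ hd
        rw [if_neg (Ne.symm hd), mul_zero]
      · simp
    rw [Finset.sum_eq_single a]
    · rw [hE a a, if_pos rfl, Finset.sum_congr rfl fun c _ => e1 c, ← Finset.mul_sum]
      have h := hE a a
      rw [if_pos rfl] at h
      have h2 : ∑ c, R a c a c = m := h
      rw [h2]
      ring
    · intro b _ hb
      refine Finset.sum_eq_zero fun c _ => Finset.sum_eq_zero fun d _ => ?_
      rw [hE a b, if_neg (Ne.symm hb), zero_mul, zero_mul]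
    · simp
  simp only [this]
  simp

theorem I6_ein : I6 R = m * nS R := by
  unfold I6
  have : ∀ a, ∑ b, Rc R a b * SS R a b = m * SS R a a := by
    intro a
    rw [Finset.sum_eq_single a]
    · rw [hE a a, if_pos rfl]
    · intro b _ hb
      rw [hE a b, if_neg (Ne.symm hb), zero_mul]
    · simp
  simp only [this]
  rw [← Finset.mul_sum]
  rfl

/-- the Bochner-Lichnerowicz cubic dominates the squared norm of the Weyl tensor -/
theorem core {s e : ℝ} (C : Cert ((m : ℝ) + 1) s e) (hR : IsCurv R)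
    (h : ∀ z : Fin (m + 1) → ℝ, ∑ a, z a ^ 2 = 1 → ∀ y, quad R z y ≤ (1 + s) * area2 z y) :
    2 / 3 * (3 - e) * m * (nS R - 2 * (m + 1) * m) ≤ 2 * m * nS R - I7 R - 4 * I8 R := by
  obtain ⟨ι, _, ⟨D⟩⟩ := exists_design (m + 1)
  have h1 : 0 ≤ D.av (fun x => 6 * m * mJJ R x - (m + 5) * mJJJ R x - 5 * mJSJ R x
      - (3 - e) * m * (mJJ R x - m)) := by
    unfold Design.av
    refine Finset.sum_nonneg fun i _ => mul_nonneg (D.w_nonneg i) ?_
    have := pt_ineq C hR hE (D.unit i) h
    linarith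
  have h2 : D.av (fun x => 6 * m * mJJ R x - (m + 5) * mJJJ R x - 5 * mJSJ R x
      - (3 - e) * m * (mJJ R x - m)) = (6 * m - (3 - e) * m) * D.av (mJJ R) - (m + 5) * D.av (mJJJ R)
      - 5 * D.av (mJSJ R) + (3 - e) * m * m := by
    have h0 : ∑ i, D.w i = 1 := D.zero'
    have h3 : (3 - e) * m * m = (3 - e) * m * m * ∑ i, D.w i := by rw [h0, mul_one]
    rw [h3]
    unfold Design.av
    rw [Finset.mul_sum, Finset.mul_sum, Finset.mul_sum, Finset.mul_sum, ← Finset.sum_sub_distrib,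
      ← Finset.sum_sub_distrib, ← Finset.sum_add_distrib]
    exact Finset.sum_congr rfl fun i _ => by ring
  rw [h2, D.av_JJ hR, D.av_JJJ hR, D.av_JSJ hR, nR_ein hE, I4_ein hE, I5_ein hE, I6_ein hE] at h1
  have k1 := Design.k64 (m + 1)
  have k2 := Design.k42 (m + 1)
  have k3 := Design.k20 (m + 1)
  push_cast at k1 k2 k3
  have hk4 : 0 < Design.k4 (m + 1) := by
    unfold Design.k4
    positivity
  have h4 : Design.k4 (m + 1) * ((m + 3) * (m + 1)) = 1 := by
    have : Design.k4 (m + 1) * ((m : ℝ) + 1 + 2) * (m + 1) = 1 := by rw [k2, k3]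
    linarith
  have h5 : Design.k4 (m + 1) * (9 / 4 * (2 * m * nS R - I7 R - 4 * I8 R)
      - 3 / 2 * (3 - e) * m * (nS R - 2 * (m + 1) * m)) =
      (6 * m - (3 - e) * m) * (Design.k4 (m + 1) * ((m + 1) * (m : ℝ) ^ 2 + 3 / 2 * nS R))
      - (m + 5) * (Design.k6 (m + 1) * ((m + 1) * (m : ℝ) ^ 3 + 9 / 2 * (m * nS R) + 7 / 2 * I7 R - I8 R))
      - 5 * (Design.k4 (m + 1) * ((m + 1) * (m : ℝ) ^ 3 - 1 / 4 * I7 R + 2 * I8 R))
      + (3 - e) * m * m := by
    have h6 : (m + 5 : ℝ) * Design.k6 (m + 1) = Design.k4 (m + 1) := by rw [← k1]; ring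
    linear_combination ((m + 1) * (m : ℝ) ^ 3 + 9 / 2 * (m * nS R) + 7 / 2 * I7 R - I8 R) * h6
      + (3 - e) * m * m * h4
  rw [← h5] at h1
  have h7 := nonneg_of_mul_nonneg_right h1 hk4
  linarith

end core

end Run7.h512.EN
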