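import Mathlib

/-!
# Algebraic curvature tensors in arbitrary dimension: components in an orthonormal basis
-/

set_option autoImplicit false

open scoped BigOperators

namespace Run7.h512.EN

/-- components of a `(0,4)`-tensor on `ℝⁿ` in an orthonormal basis -/
abbrev Ten (n : ℕ) : Type := Fin n → Fin n → Fin n → Fin n → ℝ

/-- algebraic curvature tensors -/
structure IsCurv {n : ℕ} (R : Ten n) : Prop where
  anti : ∀ a b c d, R b a c d = - R a b c d
  pair : ∀ a b c d, R c d a b = R a b c d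
  bianchi : ∀ a b c d, R a b c d + R b c a d + R c a b d = 0

section
variable {n : ℕ}

/-- `R(x, y, x, y)` -/
def quad (R : Ten n) (x y : Fin n → ℝ) : ℝ :=
  ∑ a, ∑ b, ∑ c, ∑ d, R a b c d * x a * y b * x c * y d

/-- `|x ∧ y|²` -/
def area2 (x y : Fin n → ℝ) : ℝ :=
  (∑ a, x a ^ 2) * (∑ a, y a ^ 2) - (∑ a, x a * y a) ^ 2

variable (R : Ten n)

/-- Ricci tensor -/
def Rc (a b : Fin n) : ℝ := ∑ c, R a c b c
/-- scalar curvature -/
def sc : ℝ := ∑ a, Rc R a a
/-- `|Ric|²` -/
def nR : ℝ := ∑ a, ∑ b, Rc R a b * Rc R a b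
/-- `|R|²` -/
def nS : ℝ := ∑ a, ∑ b, ∑ c, ∑ d, R a b c d * R a b c d
/-- `R_{acde} R_{bcde}` -/
def SS (a b : Fin n) : ℝ := ∑ c, ∑ d, ∑ e, R a c d e * R b c d e
def I4 : ℝ := ∑ a, ∑ b, ∑ c, Rc R a b * Rc R b c * Rc R c a
def I5 : ℝ := ∑ a, ∑ b, ∑ c, ∑ d, Rc R a b * R a c b d * Rc R c d
def I6 : ℝ := ∑ a, ∑ b, Rc R a b * SS R a b
def I7 : ℝ := ∑ a, ∑ b, ∑ c, ∑ d, ∑ e, ∑ f, R a b c d * R c d e f * R e f a b
def I8 : ℝ := ∑ a, ∑ b, ∑ c, ∑ d, ∑ e, ∑ f, R a c b d * R c e d f * R e a f b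

/-- Jacobi operator `J_ab = R(x, e_a, x, e_b)` -/
def Jm (x : Fin n → ℝ) (a b : Fin n) : ℝ := ∑ p, ∑ q, R p a q b * (x p * x q)
/-- `tr J = Ric(x, x)` -/
def jx (x : Fin n → ℝ) : ℝ := ∑ p, ∑ q, Rc R p q * (x p * x q)

def mJJ (x : Fin n → ℝ) : ℝ := ∑ a, ∑ b, Jm R x a b * Jm R x a b
def mJJJ (x : Fin n → ℝ) : ℝ := ∑ a, ∑ b, ∑ c, Jm R x a b * Jm R x b c * Jm R x c a
def mJSJ (x : Fin n → ℝ) : ℝ := ∑ a, ∑ b, ∑ c, ∑ d, Jm R x a b * Jm R x c d * R a c b d

end

/-- a finite quadrature formula on the unit sphere of `ℝⁿ`, exact for sextic forms -/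
structure Design (n : ℕ) (ι : Type) [Fintype ι] where
  w : ι → ℝ
  X : ι → Fin n → ℝ
  w_nonneg : ∀ i, 0 ≤ w i
  unit : ∀ i, ∑ a, X i a ^ 2 = 1
  six : ∀ a b c d e f : Fin n,
    ∑ i, w i * (X i a * X i b * (X i c * X i d) * (X i e * X i f)) =
      (1 / ((n : ℝ) * (n + 2) * (n + 4))) * (
        (if a = b then 1 else 0) * (if c = d then 1 else 0) * (if e = f then 1 else 0)
      + (if a = b then 1 else 0) * (if c = e then 1 else 0) * (if d = f then 1 else 0)
      + (if a = b then 1 else 0) * (if c = f then 1 else 0) * (if d = e then 1 else 0)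
      + (if a = c then 1 else 0) * (if b = d then 1 else 0) * (if e = f then 1 else 0)
      + (if a = c then 1 else 0) * (if b = e then 1 else 0) * (if d = f then 1 else 0)
      + (if a = c then 1 else 0) * (if b = f then 1 else 0) * (if d = e then 1 else 0)
      + (if a = d then 1 else 0) * (if b = c then 1 else 0) * (if e = f then 1 else 0)
      + (if a = d then 1 else 0) * (if b = e then 1 else 0) * (if c = f then 1 else 0)
      + (if a = d then 1 else 0) * (if b = f then 1 else 0) * (if c = e then 1 else 0)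
      + (if a = e then 1 else 0) * (if b = c then 1 else 0) * (if d = f then 1 else 0)
      + (if a = e then 1 else 0) * (if b = d then 1 else 0) * (if c = f then 1 else 0)
      + (if a = e then 1 else 0) * (if b = f then 1 else 0) * (if c = d then 1 else 0)
      + (if a = f then 1 else 0) * (if b = c then 1 else 0) * (if d = e then 1 else 0)
      + (if a = f then 1 else 0) * (if b = d then 1 else 0) * (if c = e then 1 else 0)
      + (if a = f then 1 else 0) * (if b = e then 1 else 0) * (if c = d then 1 else 0))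

namespace Design
variable {n : ℕ} {ι : Type} [Fintype ι] (D : Design n ι)
/-- the average of a function over the design -/
def av (φ : (Fin n → ℝ) → ℝ) : ℝ := ∑ i, D.w i * φ (D.X i)
end Design

end Run7.h512.EN
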