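import Pool.Agent.Run7.h512.EN.Main

/-!
# Fields of Einstein curvature tensors with covariant derivatives
-/

set_option autoImplicit false

open scoped BigOperators
open MeasureTheory

namespace Run7.h512.EN

section
variable {V : Type*} [NormedAddCommGroup V] [InnerProductSpace ℝ V] {n : ℕ}

/-- The identities satisfied at a point by the curvature tensor `R` of an Einstein metric and its
second covariant derivative `T u v x y z w = (∇²_{u,v} R)(x, y, z, w)`: the symmetries of the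
curvature tensor, the (differentiated) second Bianchi identity, `∇² Ric = 0`, and the Ricci identity
for the commutator of covariant derivatives. -/
structure IsSecondDeriv (e : OrthonormalBasis (Fin n) ℝ V) (R : V → V → V → V → ℝ)
    (T : V → V → V → V → V → V → ℝ) : Prop where
  anti : ∀ u v x y z w, T u v y x z w = - T u v x y z w
  pair : ∀ u v x y z w, T u v z w x y = T u v x y z w
  bianchi2 : ∀ u v x y z w, T u v x y z w + T u x y v z w + T u y v x z w = 0
  einstein : ∀ u v x y, ∑ i, T u v (e i) x (e i) y = 0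
  ricci : ∀ u v x y z w, T u v x y z w - T v u x y z w =
    ∑ i, (R u v x (e i) * R (e i) y z w + R u v y (e i) * R x (e i) z w
      + R u v z (e i) * R x y (e i) w + R u v w (e i) * R x y z (e i))

variable (e : OrthonormalBasis (Fin n) ℝ V) {R : V → V → V → V → ℝ}

/-- the Bochner-Lichnerowicz formula -/
theorem bochner_formula (hR : AlgCurv R) {κ : ℝ} (hE : Einstein e R κ)
    {T : V → V → V → V → V → V → ℝ} (hT : IsSecondDeriv e R T) :
    ∑ i, ∑ a, ∑ b, ∑ c, ∑ d, T (e i) (e i) (e a) (e b) (e c) (e d) * R (e a) (e b) (e c) (e d) =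
      cubic e R κ := by
  have hJ : IsJet (tn e R) (fun p q => fun a b c d => T (e p) (e q) (e a) (e b) (e c) (e d)) :=
    ⟨fun _ _ _ _ _ _ => hT.anti _ _ _ _ _ _, fun _ _ _ _ _ _ => hT.pair _ _ _ _ _ _,
      fun _ _ _ _ _ _ => hT.bianchi2 _ _ _ _ _ _, fun _ _ _ _ => hT.einstein _ _ _ _,
      fun _ _ _ _ _ _ => hT.ricci _ _ _ _ _ _⟩
  have h1 := bochner_id (tn_curv e hR) hJ
  have h2 : I6 (tn e R) = ((n : ℝ) - 1) * κ * nS (tn e R) := by
    unfold I6
    have : ∀ a, ∑ b, Rc (tn e R) a b * SS (tn e R) a b =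
        ((n : ℝ) - 1) * κ * SS (tn e R) a a := by
      intro a
      rw [Finset.sum_eq_single a]
      · rw [Rc_tn e hR hE a a, if_pos rfl]
      · intro b _ hb
        rw [Rc_tn e hR hE a b, if_neg (Ne.symm hb), zero_mul]
      · simp
    simp only [this]
    rw [← Finset.mul_sum]
    rfl
  rw [cubic_eq]
  rw [h2] at h1
  refine Eq.trans h1 ?_
  ring

end

/-- The curvature of an Einstein manifold and its first two covariant derivatives: at every point `p`
of `M` an `n`-dimensional Euclidean vector space `V p` with an orthonormal basis (the tangent space),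
an algebraic curvature tensor `R p`, a tensor `D p` (for `D p u x y z w = (∇_u R)(x, y, z, w)`) and
a tensor `T p` with the identities of the second covariant derivative of the curvature tensor of an
Einstein metric. -/
structure CurvField (n : ℕ) (M : Type) where
  V : M → Type
  [ng : ∀ p, NormedAddCommGroup (V p)]
  [ip : ∀ p, InnerProductSpace ℝ (V p)]
  e : ∀ p, OrthonormalBasis (Fin n) ℝ (V p)
  R : ∀ p, V p → V p → V p → V p → ℝ
  D : ∀ p, V p → V p → V p → V p → V p → ℝ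
  T : ∀ p, V p → V p → V p → V p → V p → V p → ℝ
  curv : ∀ p, AlgCurv (R p)
  second : ∀ p, IsSecondDeriv (e p) (R p) (T p)

namespace CurvField

attribute [instance] CurvField.ng CurvField.ip

variable {n : ℕ} {M : Type} (K : CurvField n M)

/-- `|∇R|²` -/
noncomputable def gradSq (p : M) : ℝ :=
  ∑ i, ∑ a, ∑ b, ∑ c, ∑ d,
    K.D p (K.e p i) (K.e p a) (K.e p b) (K.e p c) (K.e p d) ^ 2

/-- `½ Δ|R|² = |∇R|² + ⟨ΔR, R⟩`, where `ΔR = ∑ i, ∇²_{e_i, e_i} R` -/
noncomputable def halfLap (p : M) : ℝ :=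
  K.gradSq p + ∑ i, ∑ a, ∑ b, ∑ c, ∑ d,
    K.T p (K.e p i) (K.e p i) (K.e p a) (K.e p b) (K.e p c) (K.e p d)
      * K.R p (K.e p a) (K.e p b) (K.e p c) (K.e p d)

theorem gradSq_nonneg (p : M) : 0 ≤ K.gradSq p :=
  Finset.sum_nonneg fun _ _ => Finset.sum_nonneg fun _ _ => Finset.sum_nonneg fun _ _ =>
    Finset.sum_nonneg fun _ _ => Finset.sum_nonneg fun _ _ => sq_nonneg _

theorem halfLap_ge (hn : 4 ≤ n) {κ : ℝ} (hκ : 0 < κ) (p : M) (hE : Einstein (K.e p) (K.R p) κ)
    (h : SecLE (K.R p) (kn n * κ)) :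
    K.gradSq p + ((n : ℝ) - 1) * κ / 1500 * devSq (K.e p) (K.R p) κ ≤ K.halfLap p := by
  unfold halfLap
  rw [bochner_formula (K.e p) (K.curv p) hE (K.second p)]
  have := cubic_ge (K.e p) hn (K.curv p) hκ hE h
  linarith

theorem of_zero (hn : 4 ≤ n) {κ : ℝ} (hκ : 0 < κ) (p : M) (hE : Einstein (K.e p) (K.R p) κ)
    (h : SecLE (K.R p) (kn n * κ)) (h0 : K.halfLap p = 0) : K.R p = rnd κ ∧ K.gradSq p = 0 := by
  have h1 := K.halfLap_ge hn hκ p hE h
  have h2 := K.gradSq_nonneg p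
  have h3 : 0 ≤ devSq (K.e p) (K.R p) κ := normSq_nonneg _ _
  have hn' : (4 : ℝ) ≤ n := by exact_mod_cast hn
  have h4 : 0 < ((n : ℝ) - 1) * κ / 1500 := by
    have : 0 < (n : ℝ) - 1 := by linarith
    positivity
  have h5 := mul_nonneg h4.le h3
  have h6 : ((n : ℝ) - 1) * κ / 1500 * devSq (K.e p) (K.R p) κ = 0 := by linarith
  have h7 : devSq (K.e p) (K.R p) κ = 0 := by
    rcases mul_eq_zero.1 h6 with h8 | h8
    · exact absurd h8 h4.ne'
    · exact h8
  exact ⟨eq_rnd_of_dev (K.e p) (K.curv p) h7, by linarith⟩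

theorem halfLap_nonneg (hn : 4 ≤ n) {κ : ℝ} (hκ : 0 < κ) (p : M)
    (hE : Einstein (K.e p) (K.R p) κ) (h : SecLE (K.R p) (kn n * κ)) : 0 ≤ K.halfLap p := by
  have h1 := K.halfLap_ge hn hκ p hE h
  have h2 := K.gradSq_nonneg p
  have h3 : 0 ≤ devSq (K.e p) (K.R p) κ := normSq_nonneg _ _
  have hn' : (4 : ℝ) ≤ n := by exact_mod_cast hn
  have h4 : 0 < ((n : ℝ) - 1) * κ / 1500 := by
    have : 0 < (n : ℝ) - 1 := by linarith
    positivity
  have h5 := mul_nonneg h4.le h3
  linarith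

theorem ae_round [MeasurableSpace M] (μ : Measure M) (hn : 4 ≤ n) {κ : ℝ} (hκ : 0 < κ)
    (hE : ∀ p, Einstein (K.e p) (K.R p) κ) (h : ∀ p, SecLE (K.R p) (kn n * κ))
    (hi : Integrable K.halfLap μ) (h0 : ∫ p, K.halfLap p ∂μ ≤ 0) :
    ∀ᵐ p ∂μ, K.R p = rnd κ ∧ K.gradSq p = 0 := by
  have h1 : 0 ≤ K.halfLap := fun p => K.halfLap_nonneg hn hκ p (hE p) (h p)
  have h2 : ∫ p, K.halfLap p ∂μ = 0 := le_antisymm h0 (integral_nonneg h1)
  have h3 := (integral_eq_zero_iff_of_nonneg h1 hi).1 h2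
  filter_upwards [h3] with p hp
  exact K.of_zero hn hκ p (hE p) (h p) hp

theorem all_round [TopologicalSpace M] [MeasurableSpace M] [BorelSpace M] (μ : Measure M)
    [μ.IsOpenPosMeasure] (hn : 4 ≤ n) {κ : ℝ} (hκ : 0 < κ)
    (hE : ∀ p, Einstein (K.e p) (K.R p) κ) (h : ∀ p, SecLE (K.R p) (kn n * κ))
    (hc : Continuous K.halfLap) (hi : Integrable K.halfLap μ) (h0 : ∫ p, K.halfLap p ∂μ ≤ 0) (p : M) :
    K.R p = rnd κ ∧ K.gradSq p = 0 := by
  have h1 : 0 ≤ K.halfLap := fun p => K.halfLap_nonneg hn hκ p (hE p) (h p)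
  have h2 : ∫ p, K.halfLap p ∂μ = 0 := le_antisymm h0 (integral_nonneg h1)
  have h3 := (integral_eq_zero_iff_of_nonneg h1 hi).1 h2
  have h4 : K.halfLap = 0 := (Continuous.ae_eq_iff_eq μ hc continuous_zero).1 h3
  exact K.of_zero hn hκ p (hE p) (h p) (congrFun h4 p)

end CurvField

theorem kn_gt (n : ℕ) (hn : 4 ≤ n) : 30 / 19 < kn n := by
  have hn' : (4 : ℝ) ≤ n := by exact_mod_cast hn
  have h1 : 0 < 19 * (n : ℝ) - 27 := by linarith
  unfold kn
  have h2 : (11 : ℝ) / 19 < 11 * (n : ℝ) / (19 * n - 27) := by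
    rw [div_lt_div_iff₀ (by norm_num) h1]
    linarith
  linarith

end Run7.h512.EN
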