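import Pool.Agent.Run7.h512.EN.Core

/-!
# The Bochner-Lichnerowicz formula for Einstein metrics

The contraction of the rough Laplacian of the curvature tensor with the curvature tensor, from the
second Bianchi identity, the Ricci identity and the Einstein condition.
-/

set_option autoImplicit false
set_option linter.unusedSimpArgs false

open scoped BigOperators

namespace Run7.h512.EN

open Hopf6 (d4 d4s vpm slot vtx leg tau rep rt)

section
variable {n : ℕ} {R : Ten n}

theorem jn1 (hR : IsCurv R) : ∑ p, ∑ a, ∑ b, ∑ c, ∑ d, ∑ s, R p a p s * R s b c d * R a b c d = I6 R := by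
  have e : ∑ p, ∑ a, ∑ b, ∑ c, ∑ d, ∑ s, R p a p s * R s b c d * R a b c d =
      net R ![0, 1, 0, 5, 5, 2, 3, 4, 1, 2, 3, 4] := by
    rw [net_sum6]
    simp only [T3, Matrix.cons_val]
  rw [e, net_eval hR (c := 6) (v := 0) (d0 := 4) (d1 := 0) (d2 := 0) (σ := ![0, 5, 1, 2, 3, 4]) (by decide)]
  simp only [d4s, vals, Matrix.cons_val]
  push_cast
  ring

theorem jn2 (hR : IsCurv R) : ∑ p, ∑ a, ∑ b, ∑ c, ∑ d, ∑ s, R p a b s * R p s c d * R a b c d =
    - (1 / 2) * I7 R := by
  have e : ∑ p, ∑ a, ∑ b, ∑ c, ∑ d, ∑ s, R p a b s * R p s c d * R a b c d =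
      net R ![0, 1, 2, 5, 0, 5, 3, 4, 1, 2, 3, 4] := by
    rw [net_sum6]
    simp only [T3, Matrix.cons_val]
  rw [e, net_eval hR (c := 9) (v := 3) (d0 := 4) (d1 := 4) (d2 := 2) (σ := ![3, 4, 0, 5, 1, 2]) (by decide)]
  simp only [d4s, vals, Matrix.cons_val]
  push_cast
  ring

theorem jn3 (hR : IsCurv R) : ∑ p, ∑ a, ∑ b, ∑ c, ∑ d, ∑ s, R p a c s * R p b s d * R a b c d =
    - I8 R := by
  have e : ∑ p, ∑ a, ∑ b, ∑ c, ∑ d, ∑ s, R p a c s * R p b s d * R a b c d =
      net R ![0, 1, 3, 5, 0, 2, 5, 4, 1, 2, 3, 4] := by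
    rw [net_sum6]
    simp only [T3, Matrix.cons_val]
  rw [e, net_eval hR (c := 11) (v := 0) (d0 := 2) (d1 := 0) (d2 := 0) (σ := ![0, 1, 5, 3, 2, 4]) (by decide)]
  simp only [d4s, vals, Matrix.cons_val]
  push_cast
  ring

theorem jn4 (hR : IsCurv R) : ∑ p, ∑ a, ∑ b, ∑ c, ∑ d, ∑ s, R p a d s * R p b c s * R a b c d =
    - I8 R := by
  have e : ∑ p, ∑ a, ∑ b, ∑ c, ∑ d, ∑ s, R p a d s * R p b c s * R a b c d =
      net R ![0, 1, 4, 5, 0, 2, 3, 5, 1, 2, 3, 4] := by
    rw [net_sum6]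
    simp only [T3, Matrix.cons_val]
  rw [e, net_eval hR (c := 11) (v := 0) (d0 := 2) (d1 := 2) (d2 := 2) (σ := ![0, 1, 5, 4, 2, 3]) (by decide)]
  simp only [d4s, vals, Matrix.cons_val]
  push_cast
  ring

/-- the second covariant derivative of the curvature tensor of an Einstein metric, at a point -/
structure IsJet (R : Ten n) (T : Fin n → Fin n → Ten n) : Prop where
  anti : ∀ p q a b c d, T p q b a c d = - T p q a b c d
  pair : ∀ p q a b c d, T p q c d a b = T p q a b c d
  bianchi2 : ∀ p q a b c d, T p q a b c d + T p a b q c d + T p b q a c d = 0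
  einstein : ∀ p q a b, ∑ i, T p q i a i b = 0
  ricci : ∀ p q a b c d, T p q a b c d - T q p a b c d =
    ∑ s, (R p q a s * R s b c d + R p q b s * R a s c d + R p q c s * R a b s d
      + R p q d s * R a b c s)

theorem bochner_id (hR : IsCurv R) {T : Fin n → Fin n → Ten n} (hT : IsJet R T) :
    ∑ p, ∑ a, ∑ b, ∑ c, ∑ d, T p p a b c d * R a b c d = 2 * I6 R - I7 R - 4 * I8 R := by
  -- second Bianchi identity
  have h1 : ∀ p a b c d, T p p a b c d = T p a p b c d - T p b p a c d := by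
    intro p a b c d
    have e1 := hT.bianchi2 p p a b c d
    have e2 := hT.anti p a p b c d
    linarith
  have h2 : ∑ p, ∑ a, ∑ b, ∑ c, ∑ d, T p p a b c d * R a b c d =
      2 * ∑ p, ∑ a, ∑ b, ∑ c, ∑ d, T p a p b c d * R a b c d := by
    have e1 : ∀ p, ∑ a, ∑ b, ∑ c, ∑ d, T p p a b c d * R a b c d =
        ∑ a, ∑ b, ∑ c, ∑ d, T p a p b c d * R a b c d -
        ∑ a, ∑ b, ∑ c, ∑ d, T p b p a c d * R a b c d := by
      intro p
      simp only [← Finset.sum_sub_distrib]
      refine Finset.sum_congr rfl fun a _ => Finset.sum_congr rfl fun b _ =>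
        Finset.sum_congr rfl fun c _ => Finset.sum_congr rfl fun d _ => ?_
      rw [h1 p a b c d]
      ring
    have e2 : ∀ p, ∑ a, ∑ b, ∑ c, ∑ d, T p b p a c d * R a b c d =
        - ∑ a, ∑ b, ∑ c, ∑ d, T p a p b c d * R a b c d := by
      intro p
      rw [Finset.sum_comm]
      simp only [← Finset.sum_neg_distrib]
      refine Finset.sum_congr rfl fun a _ => Finset.sum_congr rfl fun b _ =>
        Finset.sum_congr rfl fun c _ => Finset.sum_congr rfl fun d _ => ?_
      rw [hR.anti a b c d]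
      ring
    rw [Finset.mul_sum]
    refine Finset.sum_congr rfl fun p _ => ?_
    rw [e1 p, e2 p]
    ring
  -- the divergence of the curvature tensor vanishes
  have h3 : ∀ a b c d, ∑ p, T a p p b c d = 0 := by
    intro a b c d
    have e1 : ∀ p, T a p p b c d = - T a c d p p b - T a d p c p b := by
      intro p
      have f1 := hT.bianchi2 a p c d p b
      have f2 := hT.pair a p c d p b
      linarith
    have e2 : ∑ p, T a c d p p b = - ∑ p, T a c p d p b := by
      rw [← Finset.sum_neg_distrib]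
      exact Finset.sum_congr rfl fun p _ => hT.anti a c p d p b
    rw [Finset.sum_congr rfl fun p _ => e1 p, Finset.sum_sub_distrib, Finset.sum_neg_distrib, e2,
      hT.einstein a c d b, hT.einstein a d c b]
    ring
  have h4 : ∑ p, ∑ a, ∑ b, ∑ c, ∑ d, T a p p b c d * R a b c d = 0 := by
    rw [Finset.sum_comm]
    refine Finset.sum_eq_zero fun a _ => ?_
    rw [Finset.sum_comm]
    refine Finset.sum_eq_zero fun b _ => ?_
    rw [Finset.sum_comm]
    refine Finset.sum_eq_zero fun c _ => ?_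
    rw [Finset.sum_comm]
    refine Finset.sum_eq_zero fun d _ => ?_
    rw [← Finset.sum_mul, h3 a b c d, zero_mul]
  -- the Ricci identity
  have h5 : ∑ p, ∑ a, ∑ b, ∑ c, ∑ d, T p a p b c d * R a b c d =
      ∑ p, ∑ a, ∑ b, ∑ c, ∑ d, T a p p b c d * R a b c d +
      ∑ p, ∑ a, ∑ b, ∑ c, ∑ d, ∑ s, R p a p s * R s b c d * R a b c d +
      ∑ p, ∑ a, ∑ b, ∑ c, ∑ d, ∑ s, R p a b s * R p s c d * R a b c d +
      ∑ p, ∑ a, ∑ b, ∑ c, ∑ d, ∑ s, R p a c s * R p b s d * R a b c d +
      ∑ p, ∑ a, ∑ b, ∑ c, ∑ d, ∑ s, R p a d s * R p b c s * R a b c d := by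
    simp only [← Finset.sum_add_distrib]
    refine Finset.sum_congr rfl fun p _ => Finset.sum_congr rfl fun a _ =>
      Finset.sum_congr rfl fun b _ => Finset.sum_congr rfl fun c _ =>
      Finset.sum_congr rfl fun d _ => ?_
    have e1 := hT.ricci p a p b c d
    have e2 : T p a p b c d = T a p p b c d + ∑ s, (R p a p s * R s b c d + R p a b s * R p s c d
      + R p a c s * R p b s d + R p a d s * R p b c s) := by linarith
    rw [e2, add_mul, Finset.sum_mul, add_assoc, add_assoc, add_assoc, ← Finset.sum_add_distrib,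
      ← Finset.sum_add_distrib, ← Finset.sum_add_distrib]
    congr 1
    exact Finset.sum_congr rfl fun s _ => by ring
  rw [h2, h5, h4, jn1 hR, jn2 hR, jn3 hR, jn4 hR]
  ring

end

end Run7.h512.EN
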