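import Pool.Agent.Run7.h512.EN.Jet

/-!
# Einstein curvature tensors with an upper curvature bound on a Euclidean vector space
-/

set_option autoImplicit false

open scoped BigOperators

namespace Run7.h512.EN

/-! ### scaling -/

section
variable {n : ℕ}

/-- scaled tensor -/
def scl (k : ℝ) (R : Ten n) : Ten n := fun a b c d => k * R a b c d

theorem scl_curv {R : Ten n} (hR : IsCurv R) (k : ℝ) : IsCurv (scl k R) := by
  refine ⟨fun a b c d => ?_, fun a b c d => ?_, fun a b c d => ?_⟩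
  · unfold scl
    rw [hR.anti a b c d]
    ring
  · unfold scl
    rw [hR.pair a b c d]
  · unfold scl
    linear_combination k * hR.bianchi a b c d

theorem quad_scl (k : ℝ) (R : Ten n) (x y : Fin n → ℝ) : quad (scl k R) x y = k * quad R x y := by
  unfold quad scl
  simp only [Finset.mul_sum]
  refine Finset.sum_congr rfl fun a _ => Finset.sum_congr rfl fun b _ =>
    Finset.sum_congr rfl fun c _ => Finset.sum_congr rfl fun d _ => ?_
  ring

theorem nS_scl (k : ℝ) (R : Ten n) : nS (scl k R) = k ^ 2 * nS R := by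
  unfold nS scl
  simp only [Finset.mul_sum]
  refine Finset.sum_congr rfl fun a _ => Finset.sum_congr rfl fun b _ =>
    Finset.sum_congr rfl fun c _ => Finset.sum_congr rfl fun d _ => ?_
  ring

theorem I7_scl (k : ℝ) (R : Ten n) : I7 (scl k R) = k ^ 3 * I7 R := by
  unfold I7 scl
  simp only [Finset.mul_sum]
  refine Finset.sum_congr rfl fun a _ => Finset.sum_congr rfl fun b _ =>
    Finset.sum_congr rfl fun c _ => Finset.sum_congr rfl fun d _ =>
    Finset.sum_congr rfl fun e _ => Finset.sum_congr rfl fun f _ => ?_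
  ring

theorem I8_scl (k : ℝ) (R : Ten n) : I8 (scl k R) = k ^ 3 * I8 R := by
  unfold I8 scl
  simp only [Finset.mul_sum]
  refine Finset.sum_congr rfl fun a _ => Finset.sum_congr rfl fun b _ =>
    Finset.sum_congr rfl fun c _ => Finset.sum_congr rfl fun d _ =>
    Finset.sum_congr rfl fun e _ => Finset.sum_congr rfl fun f _ => ?_
  ring

end

/-! ### curvature tensors on a Euclidean vector space -/

/-- the constant of the theorem: `k(n) = 1 + 11 n / (19 n - 27)` -/
noncomputable def kn (n : ℕ) : ℝ := 1 + 11 * (n : ℝ) / (19 * n - 27)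

section
variable {V : Type*} [NormedAddCommGroup V] [InnerProductSpace ℝ V] {n : ℕ}

/-- algebraic curvature tensors; `R x y x y` is the sectional curvature of the plane spanned by
the orthonormal pair `x, y`. (Linearity in the first argument and the symmetries imply linearity
in every argument.) -/
structure AlgCurv (R : V → V → V → V → ℝ) : Prop where
  add : ∀ x x' y z w, R (x + x') y z w = R x y z w + R x' y z w
  smul : ∀ (t : ℝ) (x y z w : V), R (t • x) y z w = t * R x y z w
  anti : ∀ x y z w, R y x z w = - R x y z w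
  pair : ∀ x y z w, R z w x y = R x y z w
  bianchi : ∀ x y z w, R x y z w + R y z x w + R z x y w = 0

theorem R_xx {R : V → V → V → V → ℝ} (hR : AlgCurv R) (x z w : V) : R x x z w = 0 := by
  have := hR.anti x x z w
  linarith

theorem R_xx' {R : V → V → V → V → ℝ} (hR : AlgCurv R) (x z w : V) : R z w x x = 0 := by
  rw [hR.pair x x z w, R_xx hR]

theorem R_anti' {R : V → V → V → V → ℝ} (hR : AlgCurv R) (x y z w : V) :
    R x y w z = - R x y z w := by
  rw [hR.pair w z x y, hR.anti z w x y, hR.pair x y z w]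

/-- all sectional curvatures are at most `b` -/
def SecLE (R : V → V → V → V → ℝ) (b : ℝ) : Prop :=
  ∀ x y : V, ‖x‖ = 1 → ‖y‖ = 1 → inner ℝ x y = 0 → R x y x y ≤ b

/-- the curvature tensor of constant sectional curvature `κ` -/
noncomputable def rnd (κ : ℝ) (x y z w : V) : ℝ :=
  κ * (inner ℝ x z * inner ℝ y w - inner ℝ x w * inner ℝ y z)

/-- Einstein curvature tensors: the Ricci tensor of `R`, computed in the orthonormal basis `e`, is
`(n - 1) κ` times the inner product -/
def Einstein (e : OrthonormalBasis (Fin n) ℝ V) (R : V → V → V → V → ℝ) (κ : ℝ) : Prop :=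
  ∀ v w : V, ∑ i, R (e i) v (e i) w = ((n : ℝ) - 1) * κ * inner ℝ v w

/-- components in an orthonormal basis -/
noncomputable def tn (e : OrthonormalBasis (Fin n) ℝ V) (R : V → V → V → V → ℝ) : Ten n :=
  fun a b c d => R (e a) (e b) (e c) (e d)

/-- `|R|²` -/
noncomputable def normSq (e : OrthonormalBasis (Fin n) ℝ V) (R : V → V → V → V → ℝ) : ℝ :=
  ∑ a, ∑ b, ∑ c, ∑ d, R (e a) (e b) (e c) (e d) ^ 2

/-- `R_{abcd} R_{cdef} R_{efab}` -/
noncomputable def hatR (e : OrthonormalBasis (Fin n) ℝ V) (R : V → V → V → V → ℝ) : ℝ :=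
  ∑ a, ∑ b, ∑ c, ∑ d, ∑ i, ∑ j,
    R (e a) (e b) (e c) (e d) * R (e c) (e d) (e i) (e j) * R (e i) (e j) (e a) (e b)

/-- `R_{acbd} R_{cedf} R_{eafb}` -/
noncomputable def ringR (e : OrthonormalBasis (Fin n) ℝ V) (R : V → V → V → V → ℝ) : ℝ :=
  ∑ a, ∑ b, ∑ c, ∑ d, ∑ i, ∑ j,
    R (e a) (e c) (e b) (e d) * R (e c) (e i) (e d) (e j) * R (e i) (e a) (e j) (e b)

/-- the cubic form of the Bochner-Lichnerowicz formula of an Einstein metric with
`Ric = (n - 1) κ g` -/
noncomputable def cubic (e : OrthonormalBasis (Fin n) ℝ V) (R : V → V → V → V → ℝ) (κ : ℝ) : ℝ :=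
  2 * ((n : ℝ) - 1) * κ * normSq e R - hatR e R - 4 * ringR e R

/-- squared norm of the difference between `R` and the tensor of constant curvature `κ` (for an
Einstein tensor with `Ric = (n - 1) κ g` it is the squared norm of the Weyl tensor) -/
noncomputable def devSq (e : OrthonormalBasis (Fin n) ℝ V) (R : V → V → V → V → ℝ) (κ : ℝ) : ℝ :=
  normSq e fun x y z w => R x y z w - rnd κ x y z w

variable (e : OrthonormalBasis (Fin n) ℝ V) {R : V → V → V → V → ℝ}

theorem tn_curv (hR : AlgCurv R) : IsCurv (tn e R) :=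
  ⟨fun _ _ _ _ => hR.anti _ _ _ _, fun _ _ _ _ => hR.pair _ _ _ _,
    fun _ _ _ _ => hR.bianchi _ _ _ _⟩

theorem normSq_eq (R : V → V → V → V → ℝ) : normSq e R = nS (tn e R) := by
  unfold normSq nS tn
  simp only [pow_two]

theorem cubic_eq (R : V → V → V → V → ℝ) (κ : ℝ) : cubic e R κ =
    2 * ((n : ℝ) - 1) * κ * nS (tn e R) - I7 (tn e R) - 4 * I8 (tn e R) := by
  unfold cubic
  rw [normSq_eq]
  rfl

/-- vector with given coordinates -/
noncomputable def vc (e : OrthonormalBasis (Fin n) ℝ V) (x : Fin n → ℝ) : V := ∑ a, x a • e a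

theorem vc_inner (x y : Fin n → ℝ) : inner ℝ (vc e x) (vc e y) = ∑ a, x a * y a := by
  have h := e.orthonormal.inner_sum x y Finset.univ
  simpa [vc, mul_comm] using h

theorem vc_norm (x : Fin n → ℝ) : ‖vc e x‖ ^ 2 = ∑ a, x a ^ 2 := by
  rw [← real_inner_self_eq_norm_sq, vc_inner]
  exact Finset.sum_congr rfl fun a _ => (pow_two _).symm

theorem vc_surj (v : V) : vc e (fun a => inner ℝ (e a) v) = v := by
  have h := e.sum_repr v
  simp only [OrthonormalBasis.repr_apply_apply] at h
  exact h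

theorem lin1 (hR : AlgCurv R) (x : Fin n → ℝ) (y z w : V) :
    R (vc e x) y z w = ∑ a, x a * R (e a) y z w := by
  let L : V →ₗ[ℝ] ℝ :=
    { toFun := fun u => R u y z w
      map_add' := fun u v => hR.add u v y z w
      map_smul' := fun t u => hR.smul t u y z w }
  have h : L (vc e x) = ∑ a, x a * L (e a) := by
    unfold vc
    rw [map_sum]
    exact Finset.sum_congr rfl fun a _ => by rw [map_smul, smul_eq_mul]
  exact h

theorem lin2 (hR : AlgCurv R) (x : Fin n → ℝ) (y z w : V) :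
    R y (vc e x) z w = ∑ a, x a * R y (e a) z w := by
  rw [hR.anti (vc e x) y z w, lin1 e hR, ← Finset.sum_neg_distrib]
  refine Finset.sum_congr rfl fun a _ => ?_
  rw [hR.anti (e a) y z w]
  ring

theorem lin3 (hR : AlgCurv R) (x : Fin n → ℝ) (y z w : V) :
    R y z (vc e x) w = ∑ a, x a * R y z (e a) w := by
  rw [hR.pair (vc e x) w y z, lin1 e hR]
  refine Finset.sum_congr rfl fun a _ => ?_
  rw [hR.pair (e a) w y z]

theorem lin4 (hR : AlgCurv R) (x : Fin n → ℝ) (y z w : V) :
    R y z w (vc e x) = ∑ a, x a * R y z w (e a) := by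
  rw [hR.pair w (vc e x) y z, lin2 e hR]
  refine Finset.sum_congr rfl fun a _ => ?_
  rw [hR.pair w (e a) y z]

theorem quad_tn (hR : AlgCurv R) (x y : Fin n → ℝ) :
    quad (tn e R) x y = R (vc e x) (vc e y) (vc e x) (vc e y) := by
  simp only [lin1 e hR x, lin2 e hR y, lin3 e hR x, lin4 e hR y, Finset.mul_sum]
  unfold quad tn
  refine Finset.sum_congr rfl fun a _ => Finset.sum_congr rfl fun b _ =>
    Finset.sum_congr rfl fun c _ => Finset.sum_congr rfl fun d _ => ?_
  ring

/-- a curvature tensor whose components vanish is zero -/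
theorem zero_of_comp (hR : AlgCurv R) (h : ∀ a b c d, R (e a) (e b) (e c) (e d) = 0)
    (x y z w : V) : R x y z w = 0 := by
  rw [← vc_surj e x, ← vc_surj e y, ← vc_surj e z, ← vc_surj e w]
  simp only [lin1 e hR, lin2 e hR, lin3 e hR, lin4 e hR, h, mul_zero, Finset.sum_const_zero]

theorem rnd_curv (κ : ℝ) : AlgCurv (rnd (V := V) κ) := by
  refine ⟨fun x x' y z w => ?_, fun t x y z w => ?_, fun x y z w => ?_, fun x y z w => ?_,
    fun x y z w => ?_⟩
  · simp only [rnd, inner_add_left]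
    ring
  · simp only [rnd, real_inner_smul_left]
    ring
  · simp only [rnd]
    ring
  · simp only [rnd, real_inner_comm z x, real_inner_comm w y, real_inner_comm w x,
      real_inner_comm z y]
    ring
  · simp only [rnd, real_inner_comm x y, real_inner_comm z y, real_inner_comm x z]
    ring

theorem sub_curv {S : V → V → V → V → ℝ} (hR : AlgCurv R) (hS : AlgCurv S) :
    AlgCurv fun x y z w => R x y z w - S x y z w := by
  refine ⟨fun x x' y z w => ?_, fun t x y z w => ?_, fun x y z w => ?_, fun x y z w => ?_,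
    fun x y z w => ?_⟩
  · simp only [hR.add, hS.add]
    ring
  · simp only [hR.smul, hS.smul]
    ring
  · rw [hR.anti x y z w, hS.anti x y z w]
    ring
  · rw [hR.pair x y z w, hS.pair x y z w]
  · linear_combination hR.bianchi x y z w - hS.bianchi x y z w

theorem normSq_nonneg (R : V → V → V → V → ℝ) : 0 ≤ normSq e R :=
  Finset.sum_nonneg fun _ _ => Finset.sum_nonneg fun _ _ => Finset.sum_nonneg fun _ _ =>
    Finset.sum_nonneg fun _ _ => sq_nonneg _

theorem comp_of_normSq {R : V → V → V → V → ℝ} (h : normSq e R = 0) (a b c d : Fin n) :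
    R (e a) (e b) (e c) (e d) = 0 := by
  unfold normSq at h
  have h1 := (Finset.sum_eq_zero_iff_of_nonneg fun _ _ => Finset.sum_nonneg fun _ _ =>
    Finset.sum_nonneg fun _ _ => Finset.sum_nonneg fun _ _ => sq_nonneg _).1 h a (Finset.mem_univ a)
  have h2 := (Finset.sum_eq_zero_iff_of_nonneg fun _ _ => Finset.sum_nonneg fun _ _ =>
    Finset.sum_nonneg fun _ _ => sq_nonneg _).1 h1 b (Finset.mem_univ b)
  have h3 := (Finset.sum_eq_zero_iff_of_nonneg fun _ _ =>
    Finset.sum_nonneg fun _ _ => sq_nonneg _).1 h2 c (Finset.mem_univ c)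
  have h4 := (Finset.sum_eq_zero_iff_of_nonneg fun _ _ => sq_nonneg _).1 h3 d (Finset.mem_univ d)
  exact pow_eq_zero_iff two_ne_zero |>.1 h4

theorem eq_rnd_of_dev (hR : AlgCurv R) {κ : ℝ} (h : devSq e R κ = 0) : R = rnd κ := by
  have h1 := zero_of_comp e (sub_curv hR (rnd_curv κ)) (fun a b c d => comp_of_normSq e h a b c d)
  funext x y z w
  have := h1 x y z w
  linarith

/-- the sectional curvature bound for a unit vector and an arbitrary vector -/
theorem sec_bound1 (hR : AlgCurv R) {b : ℝ} (h : SecLE R b) (x y : V) (hx : ‖x‖ = 1) :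
    R x y x y ≤ b * (‖y‖ ^ 2 - inner ℝ x y ^ 2) := by
  set t : ℝ := inner ℝ x y with ht
  set z : V := y - t • x with hz
  have hxx : inner ℝ x x = (1 : ℝ) := by rw [real_inner_self_eq_norm_sq, hx]; norm_num
  have hxz : inner ℝ x z = 0 := by
    rw [hz, inner_sub_right, inner_smul_right, hxx, ← ht]
    ring
  have hnz : ‖z‖ ^ 2 = ‖y‖ ^ 2 - t ^ 2 := by
    rw [hz, norm_sub_sq_real, inner_smul_right, real_inner_comm, ← ht, norm_smul, hx]
    rw [mul_one, Real.norm_eq_abs, sq_abs]
    ring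
  have hy : y = z + t • x := by rw [hz]; abel
  have a2 : ∀ u v v' u' w, R u (v + v') u' w = R u v u' w + R u v' u' w := by
    intro u v v' u' w
    rw [hR.anti (v + v') u u' w, hR.add, hR.anti v u u' w, hR.anti v' u u' w]
    ring
  have m2 : ∀ (t : ℝ) u v u' w, R u (t • v) u' w = t * R u v u' w := by
    intro t u v u' w
    rw [hR.anti (t • v) u u' w, hR.smul, hR.anti v u u' w]
    ring
  have a4 : ∀ u v u' w w', R u v u' (w + w') = R u v u' w + R u v u' w' := by
    intro u v u' w w'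
    rw [hR.pair u' (w + w') u v, a2, hR.pair u' w u v, hR.pair u' w' u v]
  have m4 : ∀ (t : ℝ) u v u' w, R u v u' (t • w) = t * R u v u' w := by
    intro t u v u' w
    rw [hR.pair u' (t • w) u v, m2, hR.pair u' w u v]
  have hRz : R x y x y = R x z x z := by
    rw [hy]
    simp only [a2, m2, a4, m4, R_xx hR, R_xx' hR]
    ring
  rw [hRz, ← hnz]
  rcases eq_or_ne z 0 with h0 | h0
  · rw [h0]
    have h00 : R x 0 x 0 = 0 := by
      have := m4 0 x 0 x 0
      rw [zero_smul, zero_mul] at this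
      exact this
    rw [h00]
    simp
  · have hn : ‖z‖ ≠ 0 := norm_ne_zero_iff.2 h0
    have h1 := h x (‖z‖⁻¹ • z) hx (by rw [norm_smul, norm_inv, norm_norm, inv_mul_cancel₀ hn])
      (by rw [inner_smul_right, hxz, mul_zero])
    simp only [m2, m4] at h1
    have hp : 0 < ‖z‖ ^ 2 := by positivity
    have e1 : ‖z‖⁻¹ * (‖z‖⁻¹ * R x z x z) * ‖z‖ ^ 2 = R x z x z := by
      field_simp
    rw [← e1]
    exact mul_le_mul_of_nonneg_right h1 hp.le

theorem comp_bound1 (hR : AlgCurv R) {c k : ℝ} (hc : 0 < c) (h : SecLE R (k * c))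
    (x : Fin n → ℝ) (hx : ∑ a, x a ^ 2 = 1) (y : Fin n → ℝ) :
    quad (scl c⁻¹ (tn e R)) x y ≤ k * area2 x y := by
  have hx1 : ‖vc e x‖ = 1 := by
    have := vc_norm e x
    rw [hx] at this
    nlinarith [norm_nonneg (vc e x)]
  have h1 := sec_bound1 hR h (vc e x) (vc e y) hx1
  have ha : ‖vc e y‖ ^ 2 - inner ℝ (vc e x) (vc e y) ^ 2 = area2 x y := by
    rw [vc_norm, vc_inner]
    unfold area2
    rw [hx, one_mul]
  rw [ha, ← quad_tn e hR] at h1
  rw [quad_scl]
  calc c⁻¹ * quad (tn e R) x y ≤ c⁻¹ * (k * c * area2 x y) :=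
        mul_le_mul_of_nonneg_left h1 (inv_nonneg.2 hc.le)
    _ = k * area2 x y := by field_simp

theorem Rc_tn (hR : AlgCurv R) {κ : ℝ} (hE : Einstein e R κ) (a b : Fin n) :
    Rc (tn e R) a b = if a = b then ((n : ℝ) - 1) * κ else 0 := by
  have h1 := hE (e a) (e b)
  have h2 : Rc (tn e R) a b = ∑ i, R (e i) (e a) (e i) (e b) := by
    unfold Rc tn
    refine Finset.sum_congr rfl fun i _ => ?_
    rw [hR.anti (e i) (e a) (e b) (e i), R_anti' hR (e i) (e a) (e i) (e b)]
    ring
  rw [h2, h1, orthonormal_iff_ite.1 e.orthonormal a b]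
  split_ifs
  · rw [mul_one]
  · rw [mul_zero]

theorem devSq_eq (hR : AlgCurv R) {κ : ℝ} (hE : Einstein e R κ) :
    devSq e R κ = normSq e R - 2 * n * ((n : ℝ) - 1) * κ ^ 2 := by
  have hip : ∀ a b, inner ℝ (e a) (e b) = if a = b then (1 : ℝ) else 0 :=
    orthonormal_iff_ite.1 e.orthonormal
  have hterm : ∀ a b c d, (R (e a) (e b) (e c) (e d) - rnd κ (e a) (e b) (e c) (e d)) ^ 2 =
      R (e a) (e b) (e c) (e d) ^ 2
      - 2 * κ * (R (e a) (e b) (e c) (e d) * ((if a = c then 1 else 0) * (if b = d then 1 else 0)))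
      + 2 * κ * (R (e a) (e b) (e c) (e d) * ((if a = d then 1 else 0) * (if b = c then 1 else 0)))
      + κ ^ 2 * ((if a = c then 1 else 0) * (if b = d then 1 else 0))
      + κ ^ 2 * ((if a = d then 1 else 0) * (if b = c then 1 else 0))
      - 2 * κ ^ 2 * ((if a = c then 1 else 0) * (if b = d then 1 else 0)
        * ((if a = d then 1 else 0) * (if b = c then 1 else 0))) := by
    intro a b c d
    simp only [rnd, hip]
    split_ifs <;> ring
  have s1 : ∑ a, ∑ b, ∑ c, ∑ d, (R (e a) (e b) (e c) (e d) *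
      ((if a = c then 1 else 0) * (if b = d then (1 : ℝ) else 0))) = n * (((n : ℝ) - 1) * κ) := by
    have h1 : ∀ a b, ∑ c, ∑ d, (R (e a) (e b) (e c) (e d) *
      ((if a = c then 1 else 0) * (if b = d then (1 : ℝ) else 0))) = R (e a) (e b) (e a) (e b) := by
      intro a b
      simp
    simp only [h1]
    have h2 : ∀ a, ∑ b, R (e a) (e b) (e a) (e b) = ((n : ℝ) - 1) * κ := by
      intro a
      have := Rc_tn e hR hE a a
      rw [if_pos rfl] at this
      exact this
    simp only [h2]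
    simp
  have s2 : ∑ a, ∑ b, ∑ c, ∑ d, (R (e a) (e b) (e c) (e d) *
      ((if a = d then 1 else 0) * (if b = c then (1 : ℝ) else 0))) = - (n * (((n : ℝ) - 1) * κ)) := by
    have h1 : ∀ a b, ∑ c, ∑ d, (R (e a) (e b) (e c) (e d) *
      ((if a = d then 1 else 0) * (if b = c then (1 : ℝ) else 0))) = - R (e a) (e b) (e a) (e b) := by
      intro a b
      have h3 := R_anti' hR (e a) (e b) (e a) (e b)
      rw [← h3]
      rw [Finset.sum_comm]
      simp
    simp only [h1]
    have h2 : ∀ a, ∑ b, - R (e a) (e b) (e a) (e b) = - (((n : ℝ) - 1) * κ) := by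
      intro a
      have := Rc_tn e hR hE a a
      rw [if_pos rfl] at this
      rw [Finset.sum_neg_distrib]
      exact congrArg Neg.neg this
    simp only [h2]
    simp
  have s3 : ∑ a : Fin n, ∑ b : Fin n, ∑ c : Fin n,
      ((if a = c then 1 else 0) * ∑ d : Fin n, (if b = d then (1 : ℝ) else 0)) = n ^ 2 := by
    simp
    ring
  have s4 : ∑ a : Fin n, ∑ b : Fin n, ∑ c : Fin n, ∑ d : Fin n,
      ((if a = d then 1 else 0) * (if b = c then (1 : ℝ) else 0)) = n ^ 2 := by
    simp
    ring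
  have s5 : ∑ a : Fin n, ∑ b : Fin n, ∑ c : Fin n, ∑ d : Fin n,
      ((if a = c then 1 else 0) * (if b = d then (1 : ℝ) else 0)
        * ((if a = d then 1 else 0) * (if b = c then 1 else 0))) = n := by
    simp
  unfold devSq normSq
  simp only [hterm, Finset.sum_add_distrib, Finset.sum_sub_distrib, ← Finset.mul_sum]
  rw [s1, s2, s3, s4, s5]
  ring

theorem kn_eq (m : ℕ) : kn (m + 1) = 1 + exc ((m : ℝ) + 1) := by
  unfold kn exc
  push_cast
  ring

/-- the pointwise inequality -/
theorem cubic_ge (hn : 4 ≤ n) (hR : AlgCurv R) {κ : ℝ} (hκ : 0 < κ) (hE : Einstein e R κ)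
    (h : SecLE R (kn n * κ)) : ((n : ℝ) - 1) * κ / 1500 * devSq e R κ ≤ cubic e R κ := by
  obtain ⟨m, rfl⟩ : ∃ m, n = m + 1 := ⟨n - 1, by omega⟩
  have hm : (4 : ℝ) ≤ (m : ℝ) + 1 := by exact_mod_cast hn
  have hE' : ∀ a b, Rc (scl κ⁻¹ (tn e R)) a b = if a = b then (m : ℝ) else 0 := by
    intro a b
    have h1 := Rc_tn e hR hE a b
    have h2 : Rc (scl κ⁻¹ (tn e R)) a b = κ⁻¹ * Rc (tn e R) a b := by
      unfold Rc scl
      rw [Finset.mul_sum]
    rw [h2, h1]
    split_ifs
    · push_cast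
      field_simp
      ring
    · rw [mul_zero]
  have h1 := core hE' (cert hm) (scl_curv (tn_curv e hR) κ⁻¹)
    (fun x hx y => by
      have := comp_bound1 e hR hκ h x hx y
      rwa [kn_eq] at this)
  rw [nS_scl, I7_scl, I8_scl] at h1
  rw [cubic_eq, devSq_eq e hR hE, normSq_eq]
  have h3 : 0 < κ ^ 3 := by positivity
  have h2 := mul_le_mul_of_nonneg_right h1 h3.le
  have e1 : 2 / 3 * (3 - 2999 / 1000) * (m : ℝ) * (κ⁻¹ ^ 2 * nS (tn e R) - 2 * (m + 1) * m) * κ ^ 3 =
      (((m + 1 : ℕ) : ℝ) - 1) * κ / 1500 *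
        (nS (tn e R) - 2 * ((m + 1 : ℕ) : ℝ) * (((m + 1 : ℕ) : ℝ) - 1) * κ ^ 2) := by
    push_cast
    field_simp
    ring
  have e2 : (2 * (m : ℝ) * (κ⁻¹ ^ 2 * nS (tn e R)) - κ⁻¹ ^ 3 * I7 (tn e R)
      - 4 * (κ⁻¹ ^ 3 * I8 (tn e R))) * κ ^ 3 =
      2 * (((m + 1 : ℕ) : ℝ) - 1) * κ * nS (tn e R) - I7 (tn e R) - 4 * I8 (tn e R) := by
    push_cast
    field_simp
    ring
  rw [e1, e2] at h2
  exact h2

end

end Run7.h512.EN
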