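import Pool.Agent.Run7.h512.EN.Mom

/-!
# Matrix form of the Jacobi operator
-/

set_option autoImplicit false

open scoped BigOperators Matrix

namespace Run7.h512.EN

section
variable {n : ℕ} {R : Ten n} (x : Fin n → ℝ)

/-- Jacobi operator as a matrix -/
def MJ (R : Ten n) (x : Fin n → ℝ) : Matrix (Fin n) (Fin n) ℝ := Matrix.of (Jm R x)

theorem Jm_symm (hR : IsCurv R) (a b : Fin n) : Jm R x a b = Jm R x b a := by
  unfold Jm
  rw [Finset.sum_comm]
  refine Finset.sum_congr rfl fun p _ => Finset.sum_congr rfl fun q _ => ?_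
  rw [hR.pair p b q a]
  ring

theorem Jm_x (hR : IsCurv R) (a : Fin n) : ∑ b, Jm R x a b * x b = 0 := by
  unfold Jm
  have h : ∑ b, (∑ p, ∑ q, R p a q b * (x p * x q)) * x b =
      ∑ p, x p * (∑ b, ∑ q, R p a q b * x q * x b) := by
    simp only [Finset.sum_mul, Finset.mul_sum]
    rw [Finset.sum_comm]
    refine Finset.sum_congr rfl fun p _ => Finset.sum_congr rfl fun b _ =>
      Finset.sum_congr rfl fun q _ => ?_
    ring
  rw [h]
  refine Finset.sum_eq_zero fun p _ => ?_
  have h2 : ∑ b, ∑ q, R p a q b * x q * x b = - ∑ b, ∑ q, R p a q b * x q * x b := by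
    conv_lhs => rw [Finset.sum_comm]
    simp only [← Finset.sum_neg_distrib]
    refine Finset.sum_congr rfl fun b _ => Finset.sum_congr rfl fun q _ => ?_
    rw [anti' hR p a b q]
    ring
  have h3 : ∑ b, ∑ q, R p a q b * x q * x b = 0 := by linarith
  rw [h3, mul_zero]

theorem MJ_symm (hR : IsCurv R) : (MJ R x)ᵀ = MJ R x := by
  ext a b
  exact Jm_symm x hR b a

theorem quad_J (R : Ten n) (x y : Fin n → ℝ) :
    quad R x y = ∑ a, ∑ b, Jm R x a b * (y a * y b) := by
  unfold quad Jm
  simp only [Finset.sum_mul]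
  rw [Finset.sum_comm]
  refine Finset.sum_congr rfl fun b _ => ?_
  have h1 : ∀ p, ∑ c, ∑ d, R p b c d * x p * y b * x c * y d =
    ∑ d, ∑ c, R p b c d * x p * y b * x c * y d := fun p => Finset.sum_comm
  simp only [h1]
  rw [Finset.sum_comm]
  refine Finset.sum_congr rfl fun d _ => Finset.sum_congr rfl fun p _ =>
    Finset.sum_congr rfl fun c _ => ?_
  ring

end

section
variable {n : ℕ} {R : Ten n} {x : Fin n → ℝ}

theorem tr_mul2 (A B : Matrix (Fin n) (Fin n) ℝ) :
    (A * B).trace = ∑ a, ∑ b, A a b * B b a := by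
  simp only [Matrix.trace, Matrix.diag_apply, Matrix.mul_apply]

theorem tr_mul3 (A B C : Matrix (Fin n) (Fin n) ℝ) :
    (A * B * C).trace = ∑ a, ∑ b, ∑ c, A a b * B b c * C c a := by
  simp only [Matrix.trace, Matrix.diag_apply, Matrix.mul_apply, Finset.sum_mul]
  exact Finset.sum_congr rfl fun a _ => Finset.sum_comm

theorem tr_MJ : (MJ R x).trace = jx R x := by
  simp only [Matrix.trace, Matrix.diag_apply, MJ, Matrix.of_apply, Jm, jx]
  rw [Finset.sum_comm]
  refine Finset.sum_congr rfl fun p _ => ?_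
  rw [Finset.sum_comm]
  refine Finset.sum_congr rfl fun q _ => ?_
  unfold Rc
  rw [Finset.sum_mul]

theorem tr_JJ (hR : IsCurv R) : (MJ R x * MJ R x).trace = mJJ R x := by
  rw [tr_mul2]
  refine Finset.sum_congr rfl fun a _ => Finset.sum_congr rfl fun b _ => ?_
  simp only [MJ, Matrix.of_apply]
  rw [Jm_symm x hR b a]

theorem tr_JJJ : (MJ R x * MJ R x * MJ R x).trace = mJJJ R x := tr_mul3 _ _ _

end

theorem lin_sum {m n : ℕ} (l : Fin m → ℝ) (A : Fin m → Fin n → Fin n → ℝ) (F : Fin n → Fin n → ℝ) :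
    ∑ a, ∑ b, (∑ i, l i * A i a b) * F a b = ∑ i, l i * ∑ a, ∑ b, A i a b * F a b := by
  have h1 : ∀ a, ∑ b, (∑ i, l i * A i a b) * F a b = ∑ i, ∑ b, l i * (A i a b * F a b) := by
    intro a
    simp only [Finset.sum_mul]
    rw [Finset.sum_comm]
    exact Finset.sum_congr rfl fun i _ => Finset.sum_congr rfl fun b _ => by ring
  rw [Finset.sum_congr rfl fun a _ => h1 a, Finset.sum_comm]
  refine Finset.sum_congr rfl fun i _ => ?_
  simp only [Finset.mul_sum]

theorem quad_form {n : ℕ} (R : Ten n) (x y : Fin n → ℝ) :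
    quad R x y = ∑ a, ∑ c, (x a * x c) * ∑ b, ∑ d, (y b * y d) * R a b c d := by
  unfold quad
  refine Finset.sum_congr rfl fun a _ => ?_
  rw [Finset.sum_comm]
  refine Finset.sum_congr rfl fun c _ => ?_
  simp only [Finset.mul_sum]
  refine Finset.sum_congr rfl fun b _ => Finset.sum_congr rfl fun d _ => ?_
  ring

theorem quad_symm {n : ℕ} {R : Ten n} (hR : IsCurv R) (x y : Fin n → ℝ) :
    quad R x y = quad R y x := by
  unfold quad
  rw [Finset.sum_comm]
  refine Finset.sum_congr rfl fun b _ => Finset.sum_congr rfl fun a _ => ?_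
  rw [Finset.sum_comm]
  refine Finset.sum_congr rfl fun d _ => Finset.sum_congr rfl fun c _ => ?_
  have h : R a b c d = R b a d c := by
    have h1 := hR.anti b a c d
    have h2 := hR.pair b a c d
    have h3 := hR.anti d c b a
    have h4 := hR.pair b a d c
    linarith
  rw [h]
  ring

theorem quad_self {n : ℕ} {R : Ten n} (hR : IsCurv R) (x : Fin n → ℝ) : quad R x x = 0 := by
  have h : quad R x x = - quad R x x := by
    unfold quad
    calc ∑ a, ∑ b, ∑ c, ∑ d, R a b c d * x a * x b * x c * x d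
        = ∑ b, ∑ a, ∑ c, ∑ d, R a b c d * x a * x b * x c * x d := Finset.sum_comm
      _ = - ∑ a, ∑ b, ∑ c, ∑ d, R a b c d * x a * x b * x c * x d := by
        simp only [← Finset.sum_neg_distrib]
        refine Finset.sum_congr rfl fun a _ => Finset.sum_congr rfl fun b _ =>
          Finset.sum_congr rfl fun c _ => Finset.sum_congr rfl fun d _ => ?_
        rw [hR.anti a b c d]
        ring
  linarith

end Run7.h512.EN
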