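import Pool.Agent.Run7.h512.EN.Avg

/-!
# Averages of the monomials
-/

set_option autoImplicit false
set_option linter.unusedSimpArgs false

open scoped BigOperators

namespace Run7.h512.EN
namespace Design

open Hopf6 (d4 d4s vpm slot vtx leg tau rep rt)

variable {n : ℕ} {ι : Type} [Fintype ι] (D : Design n ι) {R : Ten n}

theorem n_half (hR : IsCurv R) :
    ∑ a, ∑ b, ∑ p, ∑ q, R p a q b * R q a p b = 1 / 2 * nS R := by
  have hz : ∑ a, ∑ b, ∑ p, ∑ q, R p a q b * R q a p b =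
      ∑ a, ∑ b, ∑ p, ∑ q, R p a q b * R p q a b := by
    have e1 : ∀ a b p q, R p a q b * R q a p b = R p a b q * R p b a q := by
      intro a b p q
      rw [hR.pair p b q a, anti' hR p a b q, anti' hR p b q a]
      ring
    simp only [e1]
    refine Finset.sum_congr rfl fun a _ => ?_
    calc ∑ b, ∑ p, ∑ q, R p a b q * R p b a q = ∑ p, ∑ b, ∑ q, R p a b q * R p b a q :=
          Finset.sum_comm
      _ = ∑ p, ∑ b, ∑ q, R p a q b * R p q a b := by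
          refine Finset.sum_congr rfl fun p _ => ?_
          rw [Finset.sum_comm]
      _ = _ := Finset.sum_comm
  have hs : ∑ a, ∑ b, ∑ p, ∑ q, R p a q b * R p a q b = nS R := by
    unfold nS
    calc ∑ a, ∑ b, ∑ p, ∑ q, R p a q b * R p a q b
        = ∑ a, ∑ p, ∑ b, ∑ q, R p a q b * R p a q b :=
          Finset.sum_congr rfl fun a _ => Finset.sum_comm
      _ = ∑ p, ∑ a, ∑ b, ∑ q, R p a q b * R p a q b := Finset.sum_comm
      _ = _ := Finset.sum_congr rfl fun p _ => Finset.sum_congr rfl fun a _ => Finset.sum_comm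
  have hb : ∀ a b p q, R p a q b * R q a p b = R p a q b * R p a q b - R p a q b * R p q a b := by
    intro a b p q
    have h1 := hR.bianchi p a q b
    have h2 := hR.anti a q p b
    have h3 := hR.anti q p a b
    linear_combination (- R p a q b) * h1 + R p a q b * h2 + R p a q b * h3
  have h2 : ∑ a, ∑ b, ∑ p, ∑ q, R p a q b * R q a p b =
      ∑ a, ∑ b, ∑ p, ∑ q, R p a q b * R p a q b - ∑ a, ∑ b, ∑ p, ∑ q, R p a q b * R p q a b := by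
    simp only [← Finset.sum_sub_distrib]
    exact Finset.sum_congr rfl fun a _ => Finset.sum_congr rfl fun b _ =>
      Finset.sum_congr rfl fun p _ => Finset.sum_congr rfl fun q _ => hb a b p q
  rw [hs, ← hz] at h2
  linarith

theorem n_full : ∑ a, ∑ b, ∑ p, ∑ q, R p a q b * R p a q b = nS R := by
  unfold nS
  calc ∑ a, ∑ b, ∑ p, ∑ q, R p a q b * R p a q b
      = ∑ a, ∑ p, ∑ b, ∑ q, R p a q b * R p a q b :=
        Finset.sum_congr rfl fun a _ => Finset.sum_comm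
    _ = ∑ p, ∑ a, ∑ b, ∑ q, R p a q b * R p a q b := Finset.sum_comm
    _ = _ := Finset.sum_congr rfl fun p _ => Finset.sum_congr rfl fun a _ => Finset.sum_comm

theorem n_ric (hR : IsCurv R) : ∑ a, ∑ b, ∑ p, ∑ q, R p a p b * R q a q b = nR R := by
  unfold nR
  refine Finset.sum_congr rfl fun a _ => Finset.sum_congr rfl fun b _ => ?_
  rw [← Finset.sum_mul_sum]
  have h : ∑ p, R p a p b = Rc R a b := by
    unfold Rc
    refine Finset.sum_congr rfl fun p _ => ?_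
    rw [hR.anti a p p b, anti' hR a p b p]
    ring
  rw [h]

theorem av_JJ (hR : IsCurv R) : D.av (mJJ R) = k4 n * (nR R + 3 / 2 * nS R) := by
  have h : D.av (mJJ R) = ∑ a, ∑ b, D.av (fun x => qf (fun p q => R p a q b) x *
      qf (fun p q => R p a q b) x) := by
    simp only [← av_sum]
    rfl
  rw [h]
  simp only [quad2, c48, Finset.sum_add_distrib]
  rw [n_ric hR, n_full, n_half hR]
  ring

theorem n_JJJ0 (hR : IsCurv R) : ∑ a, ∑ b, ∑ c, ∑ p, ∑ q, ∑ r, R p a p b * R q b q c * R r c r a = (-1) * (- I4 R) := by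
  have e : ∑ a, ∑ b, ∑ c, ∑ p, ∑ q, ∑ r, R p a p b * R q b q c * R r c r a = net R ![3, 0, 3, 1, 4, 1, 4, 2, 5, 2, 5, 0] := by
    rw [net_sum6]
    simp only [T3, Matrix.cons_val, Finset.sum_mul, Finset.mul_sum, mul_assoc]
  rw [e, net_eval hR (c := 5) (v := 0) (d0 := 4) (d1 := 1) (d2 := 7) (σ := ![3, 1, 0, 4, 2, 5]) (by decide)]
  simp only [d4s, vals, Matrix.cons_val]
  push_cast
  ring

theorem n_JJJ1 (hR : IsCurv R) : ∑ a, ∑ b, ∑ c, ∑ p, ∑ q, ∑ r, R p a p b * R q b r c * R q c r a = (I6 R / 2) := by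
  have e : ∑ a, ∑ b, ∑ c, ∑ p, ∑ q, ∑ r, R p a p b * R q b r c * R q c r a = net R ![3, 0, 3, 1, 4, 1, 5, 2, 4, 2, 5, 0] := by
    rw [net_sum6]
    simp only [T3, Matrix.cons_val, Finset.sum_mul, Finset.mul_sum, mul_assoc]
  rw [e, net_eval hR (c := 7) (v := 0) (d0 := 4) (d1 := 1) (d2 := 5) (σ := ![3, 1, 0, 4, 5, 2]) (by decide)]
  simp only [d4s, vals, Matrix.cons_val]
  push_cast
  ring

theorem n_JJJ2 (hR : IsCurv R) : ∑ a, ∑ b, ∑ c, ∑ p, ∑ q, ∑ r, R p a p b * R q b r c * R r c q a = (I6 R) := by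
  have e : ∑ a, ∑ b, ∑ c, ∑ p, ∑ q, ∑ r, R p a p b * R q b r c * R r c q a = net R ![3, 0, 3, 1, 4, 1, 5, 2, 5, 2, 4, 0] := by
    rw [net_sum6]
    simp only [T3, Matrix.cons_val, Finset.sum_mul, Finset.mul_sum, mul_assoc]
  rw [e, net_eval hR (c := 6) (v := 0) (d0 := 4) (d1 := 1) (d2 := 5) (σ := ![3, 1, 0, 4, 5, 2]) (by decide)]
  simp only [d4s, vals, Matrix.cons_val]
  push_cast
  ring

theorem n_JJJ3 (hR : IsCurv R) : ∑ a, ∑ b, ∑ c, ∑ p, ∑ q, ∑ r, R p a q b * R p b q c * R r c r a = (I6 R / 2) := by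
  have e : ∑ a, ∑ b, ∑ c, ∑ p, ∑ q, ∑ r, R p a q b * R p b q c * R r c r a = net R ![3, 0, 4, 1, 3, 1, 4, 2, 5, 2, 5, 0] := by
    rw [net_sum6]
    simp only [T3, Matrix.cons_val, Finset.sum_mul, Finset.mul_sum, mul_assoc]
  rw [e, net_eval hR (c := 7) (v := 4) (d0 := 4) (d1 := 1) (d2 := 5) (σ := ![5, 0, 2, 3, 4, 1]) (by decide)]
  simp only [d4s, vals, Matrix.cons_val]
  push_cast
  ring

theorem n_JJJ4 (hR : IsCurv R) : ∑ a, ∑ b, ∑ c, ∑ p, ∑ q, ∑ r, R p a q b * R p b r c * R q c r a = (I7 R / 4) := by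
  have e : ∑ a, ∑ b, ∑ c, ∑ p, ∑ q, ∑ r, R p a q b * R p b r c * R q c r a = net R ![3, 0, 4, 1, 3, 1, 5, 2, 4, 2, 5, 0] := by
    rw [net_sum6]
    simp only [T3, Matrix.cons_val, Finset.sum_mul, Finset.mul_sum, mul_assoc]
  rw [e, net_eval hR (c := 10) (v := 0) (d0 := 2) (d1 := 0) (d2 := 5) (σ := ![3, 0, 1, 4, 5, 2]) (by decide)]
  simp only [d4s, vals, Matrix.cons_val]
  push_cast
  ring

theorem n_JJJ5 (hR : IsCurv R) : ∑ a, ∑ b, ∑ c, ∑ p, ∑ q, ∑ r, R p a q b * R p b r c * R r c q a = (I7 R / 2) := by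
  have e : ∑ a, ∑ b, ∑ c, ∑ p, ∑ q, ∑ r, R p a q b * R p b r c * R r c q a = net R ![3, 0, 4, 1, 3, 1, 5, 2, 5, 2, 4, 0] := by
    rw [net_sum6]
    simp only [T3, Matrix.cons_val, Finset.sum_mul, Finset.mul_sum, mul_assoc]
  rw [e, net_eval hR (c := 9) (v := 3) (d0 := 4) (d1 := 2) (d2 := 2) (σ := ![5, 2, 3, 1, 0, 4]) (by decide)]
  simp only [d4s, vals, Matrix.cons_val]
  push_cast
  ring

theorem n_JJJ6 (hR : IsCurv R) : ∑ a, ∑ b, ∑ c, ∑ p, ∑ q, ∑ r, R p a q b * R q b p c * R r c r a = (I6 R) := by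
  have e : ∑ a, ∑ b, ∑ c, ∑ p, ∑ q, ∑ r, R p a q b * R q b p c * R r c r a = net R ![3, 0, 4, 1, 4, 1, 3, 2, 5, 2, 5, 0] := by
    rw [net_sum6]
    simp only [T3, Matrix.cons_val, Finset.sum_mul, Finset.mul_sum, mul_assoc]
  rw [e, net_eval hR (c := 6) (v := 4) (d0 := 4) (d1 := 1) (d2 := 5) (σ := ![5, 0, 2, 3, 4, 1]) (by decide)]
  simp only [d4s, vals, Matrix.cons_val]
  push_cast
  ring

theorem n_JJJ7 (hR : IsCurv R) : ∑ a, ∑ b, ∑ c, ∑ p, ∑ q, ∑ r, R p a q b * R r b p c * R q c r a = (-1) * (I8 R - I7 R / 4) := by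
  have e : ∑ a, ∑ b, ∑ c, ∑ p, ∑ q, ∑ r, R p a q b * R r b p c * R q c r a = net R ![3, 0, 4, 1, 5, 1, 3, 2, 4, 2, 5, 0] := by
    rw [net_sum6]
    simp only [T3, Matrix.cons_val, Finset.sum_mul, Finset.mul_sum, mul_assoc]
  rw [e, net_eval hR (c := 12) (v := 0) (d0 := 2) (d1 := 6) (d2 := 5) (σ := ![3, 0, 1, 4, 2, 5]) (by decide)]
  simp only [d4s, vals, Matrix.cons_val]
  push_cast
  ring

theorem n_JJJ8 (hR : IsCurv R) : ∑ a, ∑ b, ∑ c, ∑ p, ∑ q, ∑ r, R p a q b * R r b p c * R r c q a = (I7 R / 4) := by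
  have e : ∑ a, ∑ b, ∑ c, ∑ p, ∑ q, ∑ r, R p a q b * R r b p c * R r c q a = net R ![3, 0, 4, 1, 5, 1, 3, 2, 5, 2, 4, 0] := by
    rw [net_sum6]
    simp only [T3, Matrix.cons_val, Finset.sum_mul, Finset.mul_sum, mul_assoc]
  rw [e, net_eval hR (c := 10) (v := 1) (d0 := 1) (d1 := 7) (d2 := 6) (σ := ![0, 3, 4, 1, 2, 5]) (by decide)]
  simp only [d4s, vals, Matrix.cons_val]
  push_cast
  ring

theorem n_JJJ9 (hR : IsCurv R) : ∑ a, ∑ b, ∑ c, ∑ p, ∑ q, ∑ r, R p a q b * R q b r c * R p c r a = (I7 R / 2) := by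
  have e : ∑ a, ∑ b, ∑ c, ∑ p, ∑ q, ∑ r, R p a q b * R q b r c * R p c r a = net R ![3, 0, 4, 1, 4, 1, 5, 2, 3, 2, 5, 0] := by
    rw [net_sum6]
    simp only [T3, Matrix.cons_val, Finset.sum_mul, Finset.mul_sum, mul_assoc]
  rw [e, net_eval hR (c := 9) (v := 0) (d0 := 4) (d1 := 2) (d2 := 2) (σ := ![4, 1, 3, 0, 2, 5]) (by decide)]
  simp only [d4s, vals, Matrix.cons_val]
  push_cast
  ring

theorem n_JJJ10 (hR : IsCurv R) : ∑ a, ∑ b, ∑ c, ∑ p, ∑ q, ∑ r, R p a q b * R r b q c * R p c r a = (I7 R / 4) := by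
  have e : ∑ a, ∑ b, ∑ c, ∑ p, ∑ q, ∑ r, R p a q b * R r b q c * R p c r a = net R ![3, 0, 4, 1, 5, 1, 4, 2, 3, 2, 5, 0] := by
    rw [net_sum6]
    simp only [T3, Matrix.cons_val, Finset.sum_mul, Finset.mul_sum, mul_assoc]
  rw [e, net_eval hR (c := 10) (v := 2) (d0 := 1) (d1 := 7) (d2 := 6) (σ := ![1, 5, 4, 2, 0, 3]) (by decide)]
  simp only [d4s, vals, Matrix.cons_val]
  push_cast
  ring

theorem n_JJJ11 (hR : IsCurv R) : ∑ a, ∑ b, ∑ c, ∑ p, ∑ q, ∑ r, R p a q b * R r b r c * R p c q a = (I6 R / 2) := by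
  have e : ∑ a, ∑ b, ∑ c, ∑ p, ∑ q, ∑ r, R p a q b * R r b r c * R p c q a = net R ![3, 0, 4, 1, 5, 1, 5, 2, 3, 2, 4, 0] := by
    rw [net_sum6]
    simp only [T3, Matrix.cons_val, Finset.sum_mul, Finset.mul_sum, mul_assoc]
  rw [e, net_eval hR (c := 7) (v := 2) (d0 := 0) (d1 := 5) (d2 := 1) (σ := ![5, 1, 2, 4, 3, 0]) (by decide)]
  simp only [d4s, vals, Matrix.cons_val]
  push_cast
  ring

theorem n_JJJ12 (hR : IsCurv R) : ∑ a, ∑ b, ∑ c, ∑ p, ∑ q, ∑ r, R p a q b * R q b r c * R r c p a = (I7 R) := by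
  have e : ∑ a, ∑ b, ∑ c, ∑ p, ∑ q, ∑ r, R p a q b * R q b r c * R r c p a = net R ![3, 0, 4, 1, 4, 1, 5, 2, 5, 2, 3, 0] := by
    rw [net_sum6]
    simp only [T3, Matrix.cons_val, Finset.sum_mul, Finset.mul_sum, mul_assoc]
  rw [e, net_eval hR (c := 8) (v := 0) (d0 := 4) (d1 := 0) (d2 := 4) (σ := ![4, 1, 3, 0, 5, 2]) (by decide)]
  simp only [d4s, vals, Matrix.cons_val]
  push_cast
  ring

theorem n_JJJ13 (hR : IsCurv R) : ∑ a, ∑ b, ∑ c, ∑ p, ∑ q, ∑ r, R p a q b * R r b q c * R r c p a = (I7 R / 2) := by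
  have e : ∑ a, ∑ b, ∑ c, ∑ p, ∑ q, ∑ r, R p a q b * R r b q c * R r c p a = net R ![3, 0, 4, 1, 5, 1, 4, 2, 5, 2, 3, 0] := by
    rw [net_sum6]
    simp only [T3, Matrix.cons_val, Finset.sum_mul, Finset.mul_sum, mul_assoc]
  rw [e, net_eval hR (c := 9) (v := 1) (d0 := 0) (d1 := 6) (d2 := 6) (σ := ![3, 0, 4, 1, 2, 5]) (by decide)]
  simp only [d4s, vals, Matrix.cons_val]
  push_cast
  ring

theorem n_JJJ14 (hR : IsCurv R) : ∑ a, ∑ b, ∑ c, ∑ p, ∑ q, ∑ r, R p a q b * R r b r c * R q c p a = (I6 R) := by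
  have e : ∑ a, ∑ b, ∑ c, ∑ p, ∑ q, ∑ r, R p a q b * R r b r c * R q c p a = net R ![3, 0, 4, 1, 5, 1, 5, 2, 4, 2, 3, 0] := by
    rw [net_sum6]
    simp only [T3, Matrix.cons_val, Finset.sum_mul, Finset.mul_sum, mul_assoc]
  rw [e, net_eval hR (c := 6) (v := 2) (d0 := 0) (d1 := 5) (d2 := 1) (σ := ![5, 1, 2, 4, 3, 0]) (by decide)]
  simp only [d4s, vals, Matrix.cons_val]
  push_cast
  ring

theorem av_JJJ (hR : IsCurv R) : D.av (mJJJ R) = k6 n * (I4 R + 9 / 2 * I6 R + 7 / 2 * I7 R - I8 R) := by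
  have h : D.av (mJJJ R) = ∑ a, ∑ b, ∑ c, D.av (fun x => qf (fun p q => R p a q b) x * qf (fun p q => R p b q c) x * qf (fun p q => R p c q a) x) := by
    simp only [← av_sum]
    rfl

  rw [h]
  simp (maxSteps := 2000000) only [quad3, c480, Finset.sum_add_distrib]
  rw [n_JJJ0 hR, n_JJJ1 hR, n_JJJ2 hR, n_JJJ3 hR, n_JJJ4 hR, n_JJJ5 hR, n_JJJ6 hR, n_JJJ7 hR, n_JJJ8 hR, n_JJJ9 hR, n_JJJ10 hR, n_JJJ11 hR, n_JJJ12 hR, n_JJJ13 hR, n_JJJ14 hR]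
  all_goals ring

theorem n_JSJ0 (hR : IsCurv R) : ∑ a, ∑ b, ∑ c, ∑ d, ∑ p, ∑ q, R p a p b * R q c q d * R a c b d = (I5 R) := by
  have e : ∑ a, ∑ b, ∑ c, ∑ d, ∑ p, ∑ q, R p a p b * R q c q d * R a c b d = net R ![4, 0, 4, 1, 5, 2, 5, 3, 0, 2, 1, 3] := by
    rw [net_sum6]
    simp only [T3, Matrix.cons_val, Finset.sum_mul, Finset.mul_sum, mul_assoc]
  rw [e, net_eval hR (c := 4) (v := 1) (d0 := 0) (d1 := 0) (d2 := 3) (σ := ![4, 0, 1, 2, 3, 5]) (by decide)]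
  simp only [d4s, vals, Matrix.cons_val]
  push_cast
  ring

theorem n_JSJ1 (hR : IsCurv R) : ∑ a, ∑ b, ∑ c, ∑ d, ∑ p, ∑ q, R p a q b * R p c q d * R a c b d = (I8 R) := by
  have e : ∑ a, ∑ b, ∑ c, ∑ d, ∑ p, ∑ q, R p a q b * R p c q d * R a c b d = net R ![4, 0, 5, 1, 4, 2, 5, 3, 0, 2, 1, 3] := by
    rw [net_sum6]
    simp only [T3, Matrix.cons_val, Finset.sum_mul, Finset.mul_sum, mul_assoc]
  rw [e, net_eval hR (c := 11) (v := 0) (d0 := 0) (d1 := 0) (d2 := 0) (σ := ![4, 0, 5, 1, 2, 3]) (by decide)]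
  simp only [d4s, vals, Matrix.cons_val]
  push_cast
  ring

theorem n_JSJ2 (hR : IsCurv R) : ∑ a, ∑ b, ∑ c, ∑ d, ∑ p, ∑ q, R p a q b * R q c p d * R a c b d = (I8 R - I7 R / 4) := by
  have e : ∑ a, ∑ b, ∑ c, ∑ d, ∑ p, ∑ q, R p a q b * R q c p d * R a c b d = net R ![4, 0, 5, 1, 5, 2, 4, 3, 0, 2, 1, 3] := by
    rw [net_sum6]
    simp only [T3, Matrix.cons_val, Finset.sum_mul, Finset.mul_sum, mul_assoc]
  rw [e, net_eval hR (c := 12) (v := 0) (d0 := 0) (d1 := 4) (d2 := 0) (σ := ![4, 0, 5, 1, 3, 2]) (by decide)]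
  simp only [d4s, vals, Matrix.cons_val]
  push_cast
  ring

theorem av_JSJ (hR : IsCurv R) : D.av (mJSJ R) = k4 n * (I5 R - 1 / 4 * I7 R + 2 * I8 R) := by
  have h : D.av (mJSJ R) = ∑ a, ∑ b, ∑ c, ∑ d, D.av (fun x => qf (fun p q => R p a q b) x * qf (fun p q => R p c q d) x * (R a c b d)) := by
    simp only [← av_sum]
    rfl

  rw [h]
  simp (maxSteps := 2000000) only [quad2Y, c48, Finset.sum_add_distrib]
  rw [n_JSJ0 hR, n_JSJ1 hR, n_JSJ2 hR]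
  all_goals ring

end Design
end Run7.h512.EN
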