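import Pool.Agent.Run7.h512.EN.Defs
import Pool.Agent.H933R2.Hopf.Net

/-!
# Closed cubic tensor networks and their symmetries
-/

open scoped BigOperators

namespace Run7.h512.EN

open Hopf6 (d4 d4s vpm slot vtx leg tau)

variable {n : ℕ}

/-- tensor cube with 12 slots -/
def T3 (R : Ten n) (i : Fin 12 → Fin n) : ℝ :=
  R (i 0) (i 1) (i 2) (i 3) * R (i 4) (i 5) (i 6) (i 7) * R (i 8) (i 9) (i 10) (i 11)

/-- closed cubic network: the slot `m` carries the contraction label `ℓ m` -/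
def net (R : Ten n) (ℓ : Fin 12 → Fin 6) : ℝ := ∑ f : Fin 6 → Fin n, T3 R (fun m => f (ℓ m))

def R4 (R : Ten n) (g : Fin 4 → Fin n) : ℝ := R (g 0) (g 1) (g 2) (g 3)

theorem R4_d4 {R : Ten n} (hR : IsCurv R) (g : Fin 4 → Fin n) (k : Fin 8) :
    R4 R (fun j => g (d4 k j)) = (d4s k : ℝ) * R4 R g := by
  have h1 := hR.anti
  have h2 := hR.pair
  have h3 : ∀ a b c d, R a b d c = - R a b c d := by
    intro a b c d
    rw [h2 d c a b, h1 c d a b, h2 a b c d]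
  fin_cases k
  · simp [R4, d4, d4s]
  · simp [R4, d4, d4s, h1 (g 0) (g 1)]
  · simp [R4, d4, d4s, h3 (g 0) (g 1) (g 2) (g 3)]
  · simp [R4, d4, d4s, h3 (g 1) (g 0) (g 2) (g 3), h1 (g 0) (g 1)]
  · simp [R4, d4, d4s, h2 (g 0) (g 1)]
  · simp [R4, d4, d4s, h1 (g 2) (g 3), h2 (g 0) (g 1)]
  · simp [R4, d4, d4s, h3 (g 2) (g 3) (g 0) (g 1), h2 (g 0) (g 1)]
  · simp [R4, d4, d4s, h3 (g 3) (g 2) (g 0) (g 1), h1 (g 2) (g 3), h2 (g 0) (g 1)]

theorem T3_tau {R : Ten n} (hR : IsCurv R) (i : Fin 12 → Fin n) (v : Fin 6) (d : Fin 3 → Fin 8) :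
    T3 R (fun m => i (tau v d m)) = ((d4s (d 0) * d4s (d 1) * d4s (d 2) : ℤ) : ℝ) * T3 R i := by
  have e : T3 R (fun m => i (tau v d m)) =
      R4 R (fun j => i (slot (vpm v 0) (d4 (d 0) j))) * R4 R (fun j => i (slot (vpm v 1) (d4 (d 1) j)))
        * R4 R (fun j => i (slot (vpm v 2) (d4 (d 2) j))) := rfl
  rw [e, R4_d4 hR (fun j => i (slot (vpm v 0) j)), R4_d4 hR (fun j => i (slot (vpm v 1) j)),
    R4_d4 hR (fun j => i (slot (vpm v 2) j))]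
  have e2 : T3 R i = R4 R (fun j => i (slot 0 j)) * R4 R (fun j => i (slot 1 j))
    * R4 R (fun j => i (slot 2 j)) := rfl
  rw [e2]
  push_cast
  fin_cases v <;> simp [vpm] <;> ring

theorem net_tau {R : Ten n} (hR : IsCurv R) (ℓ : Fin 12 → Fin 6) (v : Fin 6) (d : Fin 3 → Fin 8) :
    net R (fun m => ℓ (tau v d m)) = ((d4s (d 0) * d4s (d 1) * d4s (d 2) : ℤ) : ℝ) * net R ℓ := by
  unfold net
  rw [Finset.mul_sum]
  exact Finset.sum_congr rfl fun f _ => T3_tau hR (fun m => f (ℓ m)) v d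

theorem net_relabel (R : Ten n) (ℓ : Fin 12 → Fin 6) (σ : Fin 6 → Fin 6)
    (hσ : Function.Bijective σ) : net R (fun m => σ (ℓ m)) = net R ℓ := by
  unfold net
  exact Fintype.sum_equiv ((Equiv.ofBijective σ hσ).symm.arrowCongr (Equiv.refl _)) _ _ fun f => rfl

/-- witness check -/
def chk (ℓ ρ : Fin 12 → Fin 6) (v : Fin 6) (d0 d1 d2 : Fin 8) (σ : Fin 6 → Fin 6) : Bool :=
  (decide (∀ m, ℓ (tau v ![d0, d1, d2] m) = σ (ρ m))) && decide (∀ a b, σ a = σ b → a = b)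

theorem net_wit {R : Ten n} (hR : IsCurv R) {ℓ ρ : Fin 12 → Fin 6} {v : Fin 6} {d0 d1 d2 : Fin 8}
    {σ : Fin 6 → Fin 6} (h : chk ℓ ρ v d0 d1 d2 σ = true) :
    net R ℓ = ((d4s d0 * d4s d1 * d4s d2 : ℤ) : ℝ) * net R ρ := by
  simp only [chk, Bool.and_eq_true, decide_eq_true_eq] at h
  obtain ⟨h1, h2⟩ := h
  have e1 := net_tau hR ℓ v ![d0, d1, d2]
  have e2 : (fun m => ℓ (tau v ![d0, d1, d2] m)) = fun m => σ (ρ m) := funext h1
  have hb : Function.Bijective σ := Finite.injective_iff_bijective.1 fun a b => h2 a b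
  rw [e2, net_relabel R ρ σ hb] at e1
  have hs : ∀ d : Fin 8, ((d4s d : ℤ) : ℝ) * (d4s d : ℤ) = 1 := by
    intro d
    fin_cases d <;> simp [d4s]
  simp only [Matrix.cons_val_zero, Matrix.cons_val_one, Matrix.cons_val] at e1
  rw [e1]
  push_cast
  have a0 := hs d0
  have a1 := hs d1
  have a2 := hs d2
  calc net R ℓ = ((d4s d0 : ℤ) * (d4s d0 : ℤ)) * ((d4s d1 : ℤ) * (d4s d1 : ℤ))
        * ((d4s d2 : ℤ) * (d4s d2 : ℤ)) * net R ℓ := by rw [a0, a1, a2]; ring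
    _ = _ := by ring

theorem net_zero {R : Ten n} (hR : IsCurv R) {ℓ : Fin 12 → Fin 6} {v : Fin 6} {d0 d1 d2 : Fin 8}
    {σ : Fin 6 → Fin 6} (h : chk ℓ ℓ v d0 d1 d2 σ = true) (hs : d4s d0 * d4s d1 * d4s d2 = -1) :
    net R ℓ = 0 := by
  have := net_wit hR h
  rw [hs] at this
  push_cast at this
  linarith

end Run7.h512.EN
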