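import Pool.Agent.Run7.h512.EN.Net
import Pool.Agent.H933R2.Hopf.NetVal

/-!
# Values of the closed cubic networks
-/

open scoped BigOperators

namespace Run7.h512.EN

open Hopf6 (d4 d4s vpm slot vtx leg tau rep rt)

variable {n : ℕ}

theorem sum_cons {k : ℕ} (F : (Fin (k + 1) → Fin n) → ℝ) :
    ∑ f, F f = ∑ a, ∑ g : Fin k → Fin n, F (Fin.cons a g) := by
  rw [← (Fin.consEquiv fun _ : Fin (k + 1) => Fin n).sum_comp, Fintype.sum_prod_type]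
  rfl

theorem sum6 (F : (Fin 6 → Fin n) → ℝ) :
    ∑ f, F f = ∑ a, ∑ b, ∑ c, ∑ d, ∑ e, ∑ g, F ![a, b, c, d, e, g] := by
  rw [sum_cons]
  refine Finset.sum_congr rfl fun a _ => ?_
  rw [sum_cons]
  refine Finset.sum_congr rfl fun b _ => ?_
  rw [sum_cons]
  refine Finset.sum_congr rfl fun c _ => ?_
  rw [sum_cons]
  refine Finset.sum_congr rfl fun d _ => ?_
  rw [sum_cons]
  refine Finset.sum_congr rfl fun e _ => ?_
  rw [sum_cons]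
  refine Finset.sum_congr rfl fun g _ => ?_
  rw [Fintype.sum_unique]
  congr 1

theorem net_sum6 (R : Ten n) (ℓ : Fin 12 → Fin 6) :
    net R ℓ = ∑ a, ∑ b, ∑ c, ∑ d, ∑ e, ∑ g, T3 R (fun m => ![a, b, c, d, e, g] (ℓ m)) := by
  unfold net
  rw [sum6]

section
variable {R : Ten n}

theorem anti' (hR : IsCurv R) (a b c d : Fin n) : R a b d c = - R a b c d := by
  rw [hR.pair d c a b, hR.anti c d a b, hR.pair a b c d]

theorem Rc_symm (hR : IsCurv R) (a b : Fin n) : Rc R a b = Rc R b a := by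
  unfold Rc
  exact Finset.sum_congr rfl fun c _ => hR.pair b c a c

theorem net_t3 (R : Ten n) : net R ![4, 5, 4, 5, 2, 3, 2, 3, 0, 1, 0, 1] = sc R ^ 3 := by
  rw [net_sum6, pow_succ, pow_two]
  simp only [T3, Matrix.cons_val, sc, Rc, Finset.sum_mul, Finset.mul_sum]

theorem net_tnR (R : Ten n) : net R ![4, 5, 4, 5, 0, 3, 1, 3, 0, 2, 1, 2] = sc R * nR R := by
  rw [net_sum6]
  simp only [T3, Matrix.cons_val, sc, nR, Rc, Finset.sum_mul, Finset.mul_sum, mul_assoc]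

theorem net_tnS (R : Ten n) : net R ![4, 5, 4, 5, 0, 1, 2, 3, 0, 1, 2, 3] = sc R * nS R := by
  rw [net_sum6]
  simp only [T3, Matrix.cons_val, sc, nS, Rc, Finset.sum_mul, Finset.mul_sum, mul_assoc]

theorem net_I4 (R : Ten n) : net R ![0, 5, 1, 5, 1, 4, 2, 4, 2, 3, 0, 3] = I4 R := by
  rw [net_sum6]
  simp only [T3, Matrix.cons_val, I4, Rc, Finset.sum_mul, Finset.mul_sum, mul_assoc]

theorem net_I5 (R : Ten n) : net R ![0, 5, 1, 5, 0, 2, 1, 3, 2, 4, 3, 4] = I5 R := by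
  rw [net_sum6]
  simp only [T3, Matrix.cons_val, I5, Rc, Finset.sum_mul, Finset.mul_sum, mul_assoc]

theorem net_I6 (R : Ten n) : net R ![0, 5, 1, 5, 0, 2, 3, 4, 1, 2, 3, 4] = I6 R := by
  rw [net_sum6]
  simp only [T3, Matrix.cons_val, I6, SS, Rc, Finset.sum_mul, Finset.mul_sum, mul_assoc]

theorem net_I7 (R : Ten n) : net R ![0, 1, 2, 3, 2, 3, 4, 5, 4, 5, 0, 1] = I7 R := by
  rw [net_sum6]
  simp only [T3, Matrix.cons_val, I7]

theorem net_I8 (R : Ten n) : net R ![0, 2, 1, 3, 2, 4, 3, 5, 4, 0, 5, 1] = I8 R := by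
  rw [net_sum6]
  simp only [T3, Matrix.cons_val, I8]

theorem net_bia (hR : IsCurv R) (ℓ : Fin 12 → Fin 6) (v : Fin 3) :
    net R ℓ + net R (fun m => ℓ (rt v m)) + net R (fun m => ℓ (rt v (rt v m))) = 0 := by
  unfold net
  rw [← Finset.sum_add_distrib, ← Finset.sum_add_distrib]
  refine Finset.sum_eq_zero fun f _ => ?_
  fin_cases v
  · have h := hR.bianchi (f (ℓ 0)) (f (ℓ 1)) (f (ℓ 2)) (f (ℓ 3))
    simp only [T3, rt, Matrix.cons_val, Fin.zero_eta]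
    linear_combination (R (f (ℓ 4)) (f (ℓ 5)) (f (ℓ 6)) (f (ℓ 7)) *
      R (f (ℓ 8)) (f (ℓ 9)) (f (ℓ 10)) (f (ℓ 11))) * h
  · have h := hR.bianchi (f (ℓ 4)) (f (ℓ 5)) (f (ℓ 6)) (f (ℓ 7))
    simp only [T3, rt, Matrix.cons_val, Fin.mk_one]
    linear_combination (R (f (ℓ 0)) (f (ℓ 1)) (f (ℓ 2)) (f (ℓ 3)) *
      R (f (ℓ 8)) (f (ℓ 9)) (f (ℓ 10)) (f (ℓ 11))) * h
  · have h := hR.bianchi (f (ℓ 8)) (f (ℓ 9)) (f (ℓ 10)) (f (ℓ 11))
    simp only [T3, rt, Matrix.cons_val, Fin.reduceFinMk]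
    linear_combination (R (f (ℓ 0)) (f (ℓ 1)) (f (ℓ 2)) (f (ℓ 3)) *
      R (f (ℓ 4)) (f (ℓ 5)) (f (ℓ 6)) (f (ℓ 7))) * h

theorem val0 (hR : IsCurv R) : net R (rep 0) = sc R ^ 3 := by
  have h := net_wit hR (ℓ := ![4, 5, 4, 5, 2, 3, 2, 3, 0, 1, 0, 1]) (ρ := rep 0) (v := 0) (d0 := 0) (d1 := 0) (d2 := 0) (σ := ![4, 5, 2, 3, 0, 1]) (by decide)
  rw [net_t3] at h
  simp only [d4s, Matrix.cons_val] at h
  norm_num at h
  linarith

theorem val1 (hR : IsCurv R) : net R (rep 1) = sc R * nR R := by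
  have h := net_wit hR (ℓ := ![4, 5, 4, 5, 0, 3, 1, 3, 0, 2, 1, 2]) (ρ := rep 1) (v := 0) (d0 := 0) (d1 := 3) (d2 := 0) (σ := ![4, 5, 3, 0, 1, 2]) (by decide)
  rw [net_tnR] at h
  simp only [d4s, Matrix.cons_val] at h
  norm_num at h
  linarith

theorem val2 (hR : IsCurv R) : net R (rep 2) = sc R * nS R := by
  have h := net_wit hR (ℓ := ![4, 5, 4, 5, 0, 1, 2, 3, 0, 1, 2, 3]) (ρ := rep 2) (v := 0) (d0 := 0) (d1 := 0) (d2 := 0) (σ := ![4, 5, 0, 1, 2, 3]) (by decide)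
  rw [net_tnS] at h
  simp only [d4s, Matrix.cons_val] at h
  norm_num at h
  linarith

theorem val4 (hR : IsCurv R) : net R (rep 4) = I5 R := by
  have h := net_wit hR (ℓ := ![0, 5, 1, 5, 0, 2, 1, 3, 2, 4, 3, 4]) (ρ := rep 4) (v := 0) (d0 := 3) (d1 := 0) (d2 := 0) (σ := ![5, 0, 1, 2, 3, 4]) (by decide)
  rw [net_I5] at h
  simp only [d4s, Matrix.cons_val] at h
  norm_num at h
  linarith

theorem val5 (hR : IsCurv R) : net R (rep 5) = - I4 R := by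
  have h := net_wit hR (ℓ := ![0, 5, 1, 5, 1, 4, 2, 4, 2, 3, 0, 3]) (ρ := rep 5) (v := 0) (d0 := 7) (d1 := 2) (d2 := 4) (σ := ![5, 1, 0, 4, 2, 3]) (by decide)
  rw [net_I4] at h
  simp only [d4s, Matrix.cons_val] at h
  norm_num at h
  linarith

theorem val6 (hR : IsCurv R) : net R (rep 6) = I6 R := by
  have h := net_wit hR (ℓ := ![0, 5, 1, 5, 0, 2, 3, 4, 1, 2, 3, 4]) (ρ := rep 6) (v := 0) (d0 := 3) (d1 := 0) (d2 := 0) (σ := ![5, 0, 1, 2, 3, 4]) (by decide)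
  rw [net_I6] at h
  simp only [d4s, Matrix.cons_val] at h
  norm_num at h
  linarith

theorem val8 (hR : IsCurv R) : net R (rep 8) = I7 R := by
  have h := net_wit hR (ℓ := ![0, 1, 2, 3, 2, 3, 4, 5, 4, 5, 0, 1]) (ρ := rep 8) (v := 0) (d0 := 4) (d1 := 0) (d2 := 4) (σ := ![2, 3, 0, 1, 4, 5]) (by decide)
  rw [net_I7] at h
  simp only [d4s, Matrix.cons_val] at h
  norm_num at h
  linarith

theorem val11 (hR : IsCurv R) : net R (rep 11) = I8 R := by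
  have h := net_wit hR (ℓ := ![0, 2, 1, 3, 2, 4, 3, 5, 4, 0, 5, 1]) (ρ := rep 11) (v := 0) (d0 := 3) (d1 := 0) (d2 := 3) (σ := ![2, 0, 3, 1, 4, 5]) (by decide)
  rw [net_I8] at h
  simp only [d4s, Matrix.cons_val] at h
  norm_num at h
  linarith

theorem val3 (hR : IsCurv R) : net R (rep 3) = sc R * nS R / 2 := by
  have h := net_bia hR (rep 2) 1
  have h1 := net_wit hR (ℓ := ![0, 1, 0, 1, 3, 4, 2, 5, 2, 3, 4, 5]) (ρ := rep 3) (v := 0) (d0 := 0) (d1 := 0) (d2 := 1) (σ := ![0, 1, 3, 4, 2, 5]) (by decide)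
  have h2 := net_wit hR (ℓ := ![0, 1, 0, 1, 4, 2, 3, 5, 2, 3, 4, 5]) (ρ := rep 3) (v := 0) (d0 := 0) (d1 := 1) (d2 := 0) (σ := ![0, 1, 2, 4, 3, 5]) (by decide)
  have e1 : (fun m => rep 2 (rt 1 m)) = ![0, 1, 0, 1, 3, 4, 2, 5, 2, 3, 4, 5] := by decide
  have e2 : (fun m => rep 2 (rt 1 (rt 1 m))) = ![0, 1, 0, 1, 4, 2, 3, 5, 2, 3, 4, 5] := by decide
  rw [e1, e2, h1, h2, val2 hR] at h
  simp only [d4s, Matrix.cons_val] at h
  norm_num at h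
  linarith

theorem val7 (hR : IsCurv R) : net R (rep 7) = I6 R / 2 := by
  have h := net_bia hR (rep 6) 1
  have h1 := net_wit hR (ℓ := ![0, 1, 0, 2, 3, 4, 1, 5, 2, 3, 4, 5]) (ρ := rep 7) (v := 0) (d0 := 0) (d1 := 4) (d2 := 2) (σ := ![0, 1, 2, 5, 3, 4]) (by decide)
  have h2 := net_wit hR (ℓ := ![0, 1, 0, 2, 4, 1, 3, 5, 2, 3, 4, 5]) (ρ := rep 7) (v := 0) (d0 := 0) (d1 := 1) (d2 := 0) (σ := ![0, 1, 2, 4, 3, 5]) (by decide)
  have e1 : (fun m => rep 6 (rt 1 m)) = ![0, 1, 0, 2, 3, 4, 1, 5, 2, 3, 4, 5] := by decide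
  have e2 : (fun m => rep 6 (rt 1 (rt 1 m))) = ![0, 1, 0, 2, 4, 1, 3, 5, 2, 3, 4, 5] := by decide
  rw [e1, e2, h1, h2, val6 hR] at h
  simp only [d4s, Matrix.cons_val] at h
  norm_num at h
  linarith

theorem val9 (hR : IsCurv R) : net R (rep 9) = I7 R / 2 := by
  have h := net_bia hR (rep 8) 0
  have h1 := net_wit hR (ℓ := ![1, 2, 0, 3, 0, 1, 4, 5, 2, 3, 4, 5]) (ρ := rep 9) (v := 3) (d0 := 4) (d1 := 6) (d2 := 4) (σ := ![4, 5, 0, 1, 3, 2]) (by decide)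
  have h2 := net_wit hR (ℓ := ![2, 0, 1, 3, 0, 1, 4, 5, 2, 3, 4, 5]) (ρ := rep 9) (v := 3) (d0 := 4) (d1 := 4) (d2 := 1) (σ := ![4, 5, 0, 1, 2, 3]) (by decide)
  have e1 : (fun m => rep 8 (rt 0 m)) = ![1, 2, 0, 3, 0, 1, 4, 5, 2, 3, 4, 5] := by decide
  have e2 : (fun m => rep 8 (rt 0 (rt 0 m))) = ![2, 0, 1, 3, 0, 1, 4, 5, 2, 3, 4, 5] := by decide
  rw [e1, e2, h1, h2, val8 hR] at h
  simp only [d4s, Matrix.cons_val] at h
  norm_num at h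
  linarith

theorem val10 (hR : IsCurv R) : net R (rep 10) = I7 R / 4 := by
  have h := net_bia hR (rep 9) 0
  have h1 := net_wit hR (ℓ := ![1, 2, 0, 3, 0, 1, 4, 5, 2, 4, 3, 5]) (ρ := rep 10) (v := 0) (d0 := 0) (d1 := 1) (d2 := 0) (σ := ![1, 2, 0, 3, 4, 5]) (by decide)
  have h2 := net_wit hR (ℓ := ![2, 0, 1, 3, 0, 1, 4, 5, 2, 4, 3, 5]) (ρ := rep 10) (v := 0) (d0 := 1) (d1 := 0) (d2 := 0) (σ := ![0, 2, 1, 3, 4, 5]) (by decide)
  have e1 : (fun m => rep 9 (rt 0 m)) = ![1, 2, 0, 3, 0, 1, 4, 5, 2, 4, 3, 5] := by decide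
  have e2 : (fun m => rep 9 (rt 0 (rt 0 m))) = ![2, 0, 1, 3, 0, 1, 4, 5, 2, 4, 3, 5] := by decide
  rw [e1, e2, h1, h2, val9 hR] at h
  simp only [d4s, Matrix.cons_val] at h
  norm_num at h
  linarith

theorem val12 (hR : IsCurv R) : net R (rep 12) = I8 R - I7 R / 4 := by
  have h := net_bia hR (rep 10) 1
  have h1 := net_wit hR (ℓ := ![0, 1, 2, 3, 2, 4, 0, 5, 1, 4, 3, 5]) (ρ := rep 12) (v := 0) (d0 := 0) (d1 := 4) (d2 := 0) (σ := ![0, 1, 2, 3, 5, 4]) (by decide)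
  have h2 := net_wit hR (ℓ := ![0, 1, 2, 3, 4, 0, 2, 5, 1, 4, 3, 5]) (ρ := rep 11) (v := 0) (d0 := 0) (d1 := 1) (d2 := 0) (σ := ![0, 1, 2, 3, 4, 5]) (by decide)
  have e1 : (fun m => rep 10 (rt 1 m)) = ![0, 1, 2, 3, 2, 4, 0, 5, 1, 4, 3, 5] := by decide
  have e2 : (fun m => rep 10 (rt 1 (rt 1 m))) = ![0, 1, 2, 3, 4, 0, 2, 5, 1, 4, 3, 5] := by decide
  rw [e1, e2, h1, h2, val10 hR, val11 hR] at h
  simp only [d4s, Matrix.cons_val] at h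
  norm_num at h
  linarith

/-- the values of the classes -/
noncomputable def vals (R : Ten n) : Fin 13 → ℝ :=
  ![sc R ^ 3, sc R * nR R, sc R * nS R, sc R * nS R / 2, I5 R, - I4 R, I6 R, I6 R / 2,
    I7 R, I7 R / 2, I7 R / 4, I8 R, I8 R - I7 R / 4]

theorem net_rep (hR : IsCurv R) (c : Fin 13) : net R (rep c) = vals R c := by
  fin_cases c
  · exact val0 hR
  · exact val1 hR
  · exact val2 hR
  · exact val3 hR
  · exact val4 hR
  · exact val5 hR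
  · exact val6 hR
  · exact val7 hR
  · exact val8 hR
  · exact val9 hR
  · exact val10 hR
  · exact val11 hR
  · exact val12 hR

theorem net_eval (hR : IsCurv R) {ℓ : Fin 12 → Fin 6} {c : Fin 13} {v : Fin 6} {d0 d1 d2 : Fin 8}
    {σ : Fin 6 → Fin 6} (h : chk ℓ (rep c) v d0 d1 d2 σ = true) :
    net R ℓ = ((d4s d0 * d4s d1 * d4s d2 : ℤ) : ℝ) * vals R c := by
  rw [net_wit hR h, net_rep hR]

end
end Run7.h512.EN
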